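import Pool.Agent.H548R2.Post.Main

set_option autoImplicit false

/-!
A low simple set relative to the oracle, where the requirement number `n` acts on finite classes of
oracles; the classes of different requirements need not be nested. Adapted from
`Pool.Agent.H548R2.Post`.
-/

namespace Pool.Agent.V7H75.HF

open Encodable Pool.Agent.Helper227
open Pool.Agent.H548R2.Post (hlt En res En_iff_res res_le_of_hlt res_le hlt_mono En_mono mem_WE_iff
  exists_hlt_iff En_congr t15_res_zero)
open Nat.Partrec (Code)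

/-- for each `n` the sets `C n X` are the classes of an equivalence relation, with at most `c n`
elements. -/
structure IsCls (c : ℕ → ℕ) (C : ℕ → (ℕ → Bool) → Set (ℕ → Bool)) : Prop where
  self : ∀ n X, X ∈ C n X
  eq : ∀ n X Y, Y ∈ C n X → C n Y = C n X
  fin : ∀ n X, (C n X).Finite
  card : ∀ n X, (C n X).ncard ≤ c n

variable {c : ℕ → ℕ} {C : ℕ → (ℕ → Bool) → Set (ℕ → Bool)}

/-- the bound for the elements of the `n`-th requirement -/
def gb (c : ℕ → ℕ) (n : ℕ) : ℕ := n + ∑ i ∈ Finset.range n, c i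

theorem gb_mono {n n' : ℕ} (h : n ≤ n') : gb c n ≤ gb c n' := by
  unfold gb
  have := Finset.sum_le_sum_of_subset (f := c) (Finset.range_subset_range.2 h)
  omega

/-- `z` may be put into the set at stage `s` for the sake of the `n`-th requirement. -/
def Good (c : ℕ → ℕ) (C : ℕ → (ℕ → Bool) → Set (ℕ → Bool)) (a : (ℕ → Bool) → ℕ → Bool) (s n : ℕ)
    (X : ℕ → Bool) (z : ℕ) : Prop :=
  gb c n ≤ z ∧ (∀ e < n, ∀ Y ∈ C n X, res s e (join Y (a Y)) ≤ z) ∧
    ∃ Y ∈ C n X, En s n z Y ∧ ∀ y < s, a Y y = true → ¬ En s n y Y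

/-- `z` is the element put in at stage `s` for the `n`-th requirement. -/
def Act (c : ℕ → ℕ) (C : ℕ → (ℕ → Bool) → Set (ℕ → Bool)) (a : (ℕ → Bool) → ℕ → Bool) (s n : ℕ)
    (X : ℕ → Bool) (z : ℕ) : Prop :=
  z < s ∧ Good c C a s n X z ∧ ∀ z' < z, ¬ Good c C a s n X z'

open Classical in
/-- The elements put in before stage `s`. -/
noncomputable def A (c : ℕ → ℕ) (C : ℕ → (ℕ → Bool) → Set (ℕ → Bool)) :
    ℕ → (ℕ → Bool) → ℕ → Bool
  | 0, _ => fun _ => false
  | s + 1, X => fun z => decide (A c C s X z = true ∨ ∃ n < s, Act c C (A c C s) s n X z)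

open Classical in
/-- The operator: the join of `X` with the set of all elements put in. -/
noncomputable def W (c : ℕ → ℕ) (C : ℕ → (ℕ → Bool) → Set (ℕ → Bool)) (X : ℕ → Bool) : ℕ → Bool :=
  join X fun z => decide (∃ s, A c C s X z = true)

theorem A_zero {X : ℕ → Bool} {z : ℕ} : ¬ A c C 0 X z = true := by simp [A]

theorem A_succ {s : ℕ} {X : ℕ → Bool} {z : ℕ} :
    A c C (s + 1) X z = true ↔ A c C s X z = true ∨ ∃ n < s, Act c C (A c C s) s n X z := by
  simp [A]

theorem A_mono {s s' : ℕ} (h : s ≤ s') {X : ℕ → Bool} {z : ℕ}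
    (hz : A c C s X z = true) : A c C s' X z = true := by
  induction h with
  | refl => exact hz
  | step _ ih => exact A_succ.2 (Or.inl ih)

theorem A_lt {s : ℕ} {X : ℕ → Bool} {z : ℕ} (h : A c C s X z = true) : z < s := by
  induction s with
  | zero => exact absurd h A_zero
  | succ s ih =>
    rcases A_succ.1 h with h | ⟨n, _, h⟩
    · exact (ih h).trans (Nat.lt_succ_self _)
    · exact h.1.trans (Nat.lt_succ_self _)

theorem Act_unique {a : (ℕ → Bool) → ℕ → Bool} {s n : ℕ} {X : ℕ → Bool} {z z' : ℕ}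
    (h : Act c C a s n X z) (h' : Act c C a s n X z') : z = z' := by
  rcases lt_trichotomy z z' with hl | hl | hl
  · exact absurd h.2.1 (h'.2.2 z hl)
  · exact hl
  · exact absurd h'.2.1 (h.2.2 z' hl)

theorem exists_act {a : (ℕ → Bool) → ℕ → Bool} {s n : ℕ} {X : ℕ → Bool} {z : ℕ}
    (hz : z < s) (h : Good c C a s n X z) : ∃ z, Act c C a s n X z := by
  classical
  have hex : ∃ z, Good c C a s n X z := ⟨z, h⟩
  exact ⟨Nat.find hex, (Nat.find_min' hex h).trans_lt hz, Nat.find_spec hex,
    fun z' h' => Nat.find_min hex h'⟩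

theorem W_even (X : ℕ → Bool) (m : ℕ) : W c C X (2 * m) = X m := by
  unfold W join
  have h1 : 2 * m % 2 = 0 := by omega
  have h2 : 2 * m / 2 = m := by omega
  simp only [h1, h2, if_true]

theorem W_odd (X : ℕ → Bool) (m : ℕ) :
    W c C X (2 * m + 1) = true ↔ ∃ s, A c C s X m = true := by
  unfold W join
  have h1 : ¬ ((2 * m + 1) % 2 = 0) := by omega
  have h2 : (2 * m + 1) / 2 = m := by omega
  rw [if_neg h1, @decide_eq_true_iff _ (Classical.propDecidable _), h2]

theorem Good_congr {a : (ℕ → Bool) → ℕ → Bool} {s n : ℕ} {X Y : ℕ → Bool} (h : C n Y = C n X)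
    (z : ℕ) : Good c C a s n Y z ↔ Good c C a s n X z := by
  unfold Good
  rw [h]

theorem Act_congr {a : (ℕ → Bool) → ℕ → Bool} {s n : ℕ} {X Y : ℕ → Bool} (h : C n Y = C n X)
    (z : ℕ) : Act c C a s n Y z ↔ Act c C a s n X z := by
  unfold Act
  simp only [Good_congr h]

theorem act_finite (hC : IsCls c C) (X : ℕ → Bool) (n : ℕ) :
    {s | n < s ∧ ∃ z, Act c C (A c C s) s n X z}.Finite ∧
      {s | n < s ∧ ∃ z, Act c C (A c C s) s n X z}.ncard ≤ c n := by
  have key : ∀ s, ∃ Y, s ∈ {s | n < s ∧ ∃ z, Act c C (A c C s) s n X z} →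
      Y ∈ C n X ∧ ∃ z, Act c C (A c C s) s n X z ∧ En s n z Y ∧
        ∀ y < s, A c C s Y y = true → ¬ En s n y Y := by
    intro s
    by_cases hs : s ∈ {s | n < s ∧ ∃ z, Act c C (A c C s) s n X z}
    · obtain ⟨h1, z, hz⟩ := hs
      obtain ⟨Y, hY, h3, h4⟩ := hz.2.1.2.2
      exact ⟨Y, fun _ => ⟨hY, z, hz, h3, h4⟩⟩
    · exact ⟨X, fun h => absurd h hs⟩
  choose f hf using key
  have hlt' : ∀ s s', s ∈ {s | n < s ∧ ∃ z, Act c C (A c C s) s n X z} →
      s' ∈ {s | n < s ∧ ∃ z, Act c C (A c C s) s n X z} → s < s' → f s ≠ f s' := by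
    intro s s' hs hs' hss he
    obtain ⟨hk, z, hz, h3, -⟩ := hf s hs
    obtain ⟨-, z', -, -, h4'⟩ := hf s' hs'
    have h5 : Act c C (A c C s) s n (f s) z := (Act_congr (hC.eq n X _ hk) z).2 hz
    have h6 : A c C (s + 1) (f s) z = true := A_succ.2 (Or.inr ⟨n, hs.1, h5⟩)
    have h7 : A c C s' (f s) z = true := A_mono hss h6
    have h8 : En s' n z (f s) := En_mono hss.le h3
    rw [he] at h7 h8
    exact h4' z (A_lt h7) h7 h8
  have hinj : Set.InjOn f {s | n < s ∧ ∃ z, Act c C (A c C s) s n X z} := by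
    intro s hs s' hs' he
    by_contra hne
    rcases lt_or_gt_of_ne hne with h | h
    · exact hlt' s s' hs hs' h he
    · exact hlt' s' s hs' hs h he.symm
  have hmaps : Set.MapsTo f {s | n < s ∧ ∃ z, Act c C (A c C s) s n X z} (C n X) := by
    intro s hs
    exact (hf s hs).1
  have hfin : {s | n < s ∧ ∃ z, Act c C (A c C s) s n X z}.Finite :=
    Set.Finite.of_injOn hmaps hinj (hC.fin n X)
  refine ⟨hfin, ?_⟩
  exact (Set.ncard_le_ncard_of_injOn f hmaps hinj (hC.fin n X)).trans (hC.card n X)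

theorem act_eventually (hC : IsCls c C) (X : ℕ → Bool) (N : ℕ) :
    ∃ s0, N ≤ s0 ∧ ∀ s ≥ s0, ∀ n < N, ∀ z, ¬ Act c C (A c C s) s n X z := by
  have hfin : (⋃ n ∈ Finset.range N, {s | n < s ∧ ∃ z, Act c C (A c C s) s n X z}).Finite :=
    Set.Finite.biUnion (Finset.finite_toSet _) fun n _ => (act_finite hC X n).1
  obtain ⟨b, hb⟩ := hfin.bddAbove
  refine ⟨max N (b + 1), le_max_left _ _, fun s hs n hn z hz => ?_⟩
  have h1 : N ≤ s := (le_max_left _ _).trans hs
  have h2 : b + 1 ≤ s := (le_max_right _ _).trans hs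
  have h3 : s ∈ ⋃ n ∈ Finset.range N, {s | n < s ∧ ∃ z, Act c C (A c C s) s n X z} := by
    simp only [Set.mem_iUnion]
    exact ⟨n, Finset.mem_range.2 hn, by omega, z, hz⟩
  have h4 := hb h3
  omega

theorem join_stable (X : ℕ → Bool) (b : ℕ) :
    ∃ s0, ∀ s ≥ s0, ∀ i < b, join X (A c C s X) i = W c C X i := by
  induction b with
  | zero => exact ⟨0, fun s _ i hi => absurd hi (Nat.not_lt_zero _)⟩
  | succ b ih =>
    obtain ⟨s0, hs0⟩ := ih
    obtain ⟨s1, hs1⟩ : ∃ s1, ∀ s ≥ s1, join X (A c C s X) b = W c C X b := by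
      unfold W join
      by_cases hb : b % 2 = 0
      · exact ⟨0, fun s _ => by rw [if_pos hb, if_pos hb]⟩
      · by_cases hex : ∃ s, A c C s X (b / 2) = true
        · obtain ⟨s1, h1⟩ := hex
          refine ⟨s1, fun s hs => ?_⟩
          have h2 : ∃ s, A c C s X (b / 2) = true := ⟨s1, h1⟩
          simp only [if_neg hb, A_mono hs h1, h2, decide_true]
        · refine ⟨0, fun s _ => ?_⟩
          have h2 : ¬ A c C s X (b / 2) = true := fun h => hex ⟨s, h⟩
          simp only [if_neg hb, hex, decide_false]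
          simpa using h2
    refine ⟨max s0 s1, fun s hs i hi => ?_⟩
    rcases Nat.lt_succ_iff_lt_or_eq.1 hi with h | h
    · exact hs0 s (le_trans (le_max_left _ _) hs) i h
    · rw [h]
      exact hs1 s (le_trans (le_max_right _ _) hs)

theorem exists_of_mem {X : ℕ → Bool} {z : ℕ} (s : ℕ) (hz : A c C s X z = true) :
    ∃ s' n, n < s' ∧ Act c C (A c C s') s' n X z := by
  induction s with
  | zero => exact absurd hz A_zero
  | succ s ih =>
    rcases A_succ.1 hz with h | ⟨n, hn, h⟩
    · exact ih h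
    · exact ⟨s, n, hn, h⟩

theorem coinfinite (hC : IsCls c C) (X : ℕ → Bool) :
    {z | ¬ ∃ s, A c C s X z = true}.Infinite := by
  intro hfin
  have key : ∀ N : ℕ, gb c N ≤ (∑ n ∈ Finset.range N, c n) + hfin.toFinset.card := by
    intro N
    let F : Finset ℕ := (Finset.range N).biUnion (fun n =>
      ((act_finite hC X n).1.toFinset).image (fun s => sInf {z | Act c C (A c C s) s n X z}))
    have hF : F.card ≤ ∑ n ∈ Finset.range N, c n := by
      refine Finset.card_biUnion_le.trans (Finset.sum_le_sum fun n _ => ?_)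
      refine Finset.card_image_le.trans ?_
      rw [← Set.ncard_eq_toFinset_card _ (act_finite hC X n).1]
      exact (act_finite hC X n).2
    have hsub : Finset.range (gb c N) ⊆ F ∪ hfin.toFinset := by
      intro z hz
      rw [Finset.mem_range] at hz
      rw [Finset.mem_union]
      by_cases hU : ∃ s, A c C s X z = true
      · left
        obtain ⟨s, hs⟩ := hU
        obtain ⟨s', n, hn, ha⟩ := exists_of_mem s hs
        have h4 : gb c n ≤ z := ha.2.1.1
        have hnN : n < N := by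
          by_contra hcon
          have := gb_mono (c := c) (n := N) (n' := n) (by omega)
          omega
        refine Finset.mem_biUnion.2 ⟨n, Finset.mem_range.2 hnN, Finset.mem_image.2 ⟨s', ?_, ?_⟩⟩
        · rw [Set.Finite.mem_toFinset]
          exact ⟨hn, z, ha⟩
        · exact Act_unique (Nat.sInf_mem (s := {z | Act c C (A c C s') s' n X z}) ⟨z, ha⟩) ha
      · right
        rw [Set.Finite.mem_toFinset]
        exact hU
    have := (Finset.card_le_card hsub).trans (Finset.card_union_le _ _)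
    rw [Finset.card_range] at this
    omega
  have h1 := key (hfin.toFinset.card + 1)
  unfold gb at h1
  omega

/-- once the requirements up to `e` are silent, a halting computation is preserved -/
theorem res_step (hC : IsCls c C) (X : ℕ → Bool) {s e : ℕ}
    (h0 : ∀ n < e + 1, ∀ z, ¬ Act c C (A c C s) s n X z)
    (h : En s e e (join X (A c C s X))) :
    En (s + 1) e e (join X (A c C (s + 1) X)) ∧
      res (s + 1) e (join X (A c C (s + 1) X)) ≤ res s e (join X (A c C s X)) := by
  have h1 := En_iff_res.1 h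
  have hr := res_le s e (join X (A c C s X))
  have hpre : pre (join X (A c C (s + 1) X)) (res s e (join X (A c C s X))) =
      pre (join X (A c C s X)) (res s e (join X (A c C s X))) := by
    unfold pre
    apply List.map_congr_left
    intro i hi
    rw [List.mem_range] at hi
    unfold join
    by_cases h2 : i % 2 = 0
    · rw [if_pos h2, if_pos h2]
    · rw [if_neg h2, if_neg h2, Bool.eq_iff_iff]
      constructor
      · intro hz
        rcases A_succ.1 hz with hz | ⟨n, _, hn2⟩
        · exact hz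
        · exfalso
          have hne : e < n := by
            by_contra hcon
            exact h0 n (by omega) _ hn2
          have hg := hn2.2.1.2.1 e hne X (hC.self n X)
          omega
      · intro hz
        exact A_succ.2 (Or.inl hz)
  have h3 : hlt (s + 1) e e (pre (join X (A c C (s + 1) X)) (res s e (join X (A c C s X)))) = true := by
    rw [hpre]
    exact hlt_mono (Nat.le_succ s) h1
  exact ⟨⟨_, by omega, h3⟩, res_le_of_hlt (by omega) h3⟩

theorem res_bounded (hC : IsCls c C) (X : ℕ → Bool) (e : ℕ) :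
    ∃ b, ∀ s, res s e (join X (A c C s X)) ≤ b := by
  obtain ⟨s0, _, h0⟩ := act_eventually hC X (e + 1)
  by_cases hE : ∃ s1, s0 ≤ s1 ∧ En s1 e e (join X (A c C s1 X))
  · obtain ⟨s1, hs1, hE⟩ := hE
    have key : ∀ k, En (s1 + k) e e (join X (A c C (s1 + k) X)) ∧
        res (s1 + k) e (join X (A c C (s1 + k) X)) ≤ res s1 e (join X (A c C s1 X)) := by
      intro k
      induction k with
      | zero => exact ⟨hE, le_rfl⟩
      | succ k ih =>
        have := res_step hC X (s := s1 + k) (e := e)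
          (fun n hn => h0 (s1 + k) (by omega) n hn) ih.1
        exact ⟨this.1, this.2.trans ih.2⟩
    refine ⟨s1, fun s => ?_⟩
    rcases le_total s1 s with h | h
    · obtain ⟨k, rfl⟩ := Nat.exists_eq_add_of_le h
      exact (key k).2.trans (res_le _ _ _)
    · exact (res_le _ _ _).trans h
  · refine ⟨s0, fun s => ?_⟩
    rcases le_total s0 s with h | h
    · rw [t15_res_zero (fun hE' => hE ⟨s, h, hE'⟩)]
      exact Nat.zero_le _
    · exact (res_le _ _ _).trans h

theorem jump_true (X : ℕ → Bool) (e : ℕ)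
    (h : jump (W c C X) e = true) : ∃ s0, ∀ s ≥ s0, En s e e (join X (A c C s X)) := by
  rw [jump_eq_true] at h
  obtain ⟨s1, k, hk, hs1⟩ := (mem_WE_iff _ _ _).1 h
  obtain ⟨s2, hs2⟩ := join_stable (c := c) (C := C) X k
  refine ⟨max (max s1 s2) k, fun s hs => ⟨k, (le_max_right _ _).trans hs, ?_⟩⟩
  have h1 : s1 ≤ s := ((le_max_left s1 s2).trans (le_max_left _ _)).trans hs
  have h2 : s2 ≤ s := ((le_max_right s1 s2).trans (le_max_left _ _)).trans hs
  have h3 : pre (join X (A c C s X)) k = pre (W c C X) k := by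
    unfold pre
    refine List.map_congr_left fun i hi => ?_
    exact hs2 s h2 i (List.mem_range.1 hi)
  rw [h3]
  exact hlt_mono h1 hs1

theorem jump_false (hC : IsCls c C) (X : ℕ → Bool) (e : ℕ)
    (h : jump (W c C X) e = false) : ∃ s0, ∀ s ≥ s0, ¬ En s e e (join X (A c C s X)) := by
  obtain ⟨s0, _, hs0⟩ := act_eventually hC X (e + 1)
  refine ⟨s0, ?_⟩
  intro s1 hs1 hEn
  have hind : ∀ s ≥ s1, En s e e (join X (A c C s X)) ∧
      res s e (join X (A c C s X)) ≤ res s1 e (join X (A c C s1 X)) := by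
    intro s hs
    induction s, hs using Nat.le_induction with
    | base => exact ⟨hEn, le_rfl⟩
    | succ s hs ih =>
      obtain ⟨h1, h2⟩ := res_step hC X (hs0 s (le_trans hs1 hs)) ih.1
      exact ⟨h1, h2.trans ih.2⟩
  obtain ⟨s2, hs2⟩ := join_stable (c := c) (C := C) X (res s1 e (join X (A c C s1 X)))
  obtain ⟨h1, h2⟩ := hind (max s1 s2) (le_max_left _ _)
  have h3 := En_iff_res.mp h1
  have h4 : pre (join X (A c C (max s1 s2) X))
      (res (max s1 s2) e (join X (A c C (max s1 s2) X))) =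
      pre (W c C X) (res (max s1 s2) e (join X (A c C (max s1 s2) X))) := by
    unfold pre
    apply List.map_congr_left
    intro i hi
    rw [List.mem_range] at hi
    exact hs2 _ (le_max_right _ _) i (lt_of_lt_of_le hi h2)
  rw [h4] at h3
  have h5 : jump (W c C X) e = true :=
    jump_eq_true.mpr ⟨_, (exists_hlt_iff e e _).mp ⟨_, h3⟩⟩
  rw [h] at h5
  exact Bool.false_ne_true h5

theorem simple (hC : IsCls c C) (X : ℕ → Bool) (n : ℕ)
    (h : (WE X n).Infinite) : ∃ z ∈ WE X n, ∃ s, A c C s X z = true := by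
  classical
  by_contra hcon
  push Not at hcon
  have hb : ∀ e Y, ∃ b, ∀ s, res s e (join Y (A c C s Y)) ≤ b :=
    fun e Y => res_bounded hC Y e
  choose b hb using hb
  have hB : ∀ e < n, ∀ Y ∈ C n X,
      b e Y ≤ ∑ e ∈ Finset.range n, ∑ Y ∈ (hC.fin n X).toFinset, b e Y := by
    intro e he Y hY
    have h1 : b e Y ≤ ∑ Y ∈ (hC.fin n X).toFinset, b e Y :=
      Finset.single_le_sum (f := fun Y => b e Y) (fun _ _ => Nat.zero_le _)
        ((hC.fin n X).mem_toFinset.2 hY)
    have h2 : ∑ Y ∈ (hC.fin n X).toFinset, b e Y ≤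
        ∑ e ∈ Finset.range n, ∑ Y ∈ (hC.fin n X).toFinset, b e Y :=
      Finset.single_le_sum (f := fun e => ∑ Y ∈ (hC.fin n X).toFinset, b e Y)
        (fun _ _ => Nat.zero_le _) (Finset.mem_range.2 he)
    exact h1.trans h2
  obtain ⟨z, hz, hzB⟩ := h.exists_gt
    (max (∑ e ∈ Finset.range n, ∑ Y ∈ (hC.fin n X).toFinset, b e Y) (gb c n))
  obtain ⟨s1, hs1⟩ := (mem_WE_iff X n z).1 hz
  have hinf : {s | n < s ∧ ∃ z, Act c C (A c C s) s n X z}.Infinite := by
    refine Set.Infinite.mono (s := Set.Ioi (max (max s1 z) n)) ?_ (Set.Ioi_infinite _)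
    intro s hs
    have h0 : max (max s1 z) n < s := hs
    have h1 : s1 < s := lt_of_le_of_lt ((le_max_left _ _).trans (le_max_left _ _)) h0
    have h2 : z < s := lt_of_le_of_lt ((le_max_right _ _).trans (le_max_left _ _)) h0
    have h3 : n < s := lt_of_le_of_lt (le_max_right _ _) h0
    refine ⟨h3, exists_act h2 ⟨?_, ?_, ?_⟩⟩
    · exact (lt_of_le_of_lt (le_max_right _ _) hzB).le
    · intro e he Y hY
      exact (hb e Y s).trans ((hB e he Y hY).trans (lt_of_le_of_lt (le_max_left _ _) hzB).le)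
    · refine ⟨X, hC.self n X, ?_, ?_⟩
      · exact En_mono h1.le hs1
      · intro y _ hy hEn
        exact hcon y ((mem_WE_iff X n y).2 ⟨s, hEn⟩) s hy
  exact hinf (act_finite hC X n).1

/-- oracles which are in the same classes from some level on get almost the same set -/
theorem almost_equal (hC : IsCls c C) (X X' : ℕ → Bool) (h : ∃ N, ∀ n ≥ N, X' ∈ C n X) :
    ∃ b, ∀ z ≥ b, ((∃ s, A c C s X z = true) ↔ ∃ s, A c C s X' z = true) := by
  obtain ⟨K, hK⟩ := h
  obtain ⟨s1, -, h1⟩ := act_eventually hC X K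
  obtain ⟨s2, -, h2⟩ := act_eventually hC X' K
  obtain ⟨s0, hs0⟩ : ∃ s0, s0 = max s1 s2 := ⟨_, rfl⟩
  have key : ∀ s ≥ s0, ∀ n z, Act c C (A c C s) s n X z ↔ Act c C (A c C s) s n X' z := by
    intro s hs n z
    by_cases hn : n < K
    · exact ⟨fun h => absurd h (h1 s (by omega) n hn z), fun h => absurd h (h2 s (by omega) n hn z)⟩
    · exact (Act_congr (hC.eq n X X' (hK n (by omega))) z).symm
  have hmem : ∀ (Y : ℕ → Bool) (z s : ℕ), A c C s Y z = true →
      A c C s0 Y z = true ∨ ∃ s' ≥ s0, ∃ n < s', Act c C (A c C s') s' n Y z := by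
    intro Y z s
    induction s with
    | zero => intro h; exact absurd h A_zero
    | succ s ih =>
      intro h
      rcases A_succ.1 h with h' | ⟨n, hn, h'⟩
      · exact ih h'
      · by_cases hss : s0 ≤ s
        · exact Or.inr ⟨s, hss, n, hn, h'⟩
        · exact Or.inl (A_mono (by omega) h)
  refine ⟨s0, fun z hz => ?_⟩
  constructor
  · rintro ⟨s, hs⟩
    rcases hmem X z s hs with h | ⟨s', hs', n, hn, h⟩
    · exact absurd (A_lt h) (by omega)
    · exact ⟨s' + 1, A_succ.2 (Or.inr ⟨n, hn, (key s' hs' n z).1 h⟩)⟩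
  · rintro ⟨s, hs⟩
    rcases hmem X' z s hs with h | ⟨s', hs', n, hn, h⟩
    · exact absurd (A_lt h) (by omega)
    · exact ⟨s' + 1, A_succ.2 (Or.inr ⟨n, hn, (key s' hs' n z).2 h⟩)⟩

end Pool.Agent.V7H75.HF
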