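import Pool.Agent.V7H75.HF.Iter
import Pool.Agent.V7H75.HF.Comb
import Pool.Agent.H869R3.RT.Inv

set_option autoImplicit false

/-!
Computability of the construction, for classes which are computable uniformly in the oracle.
-/

namespace Pool.Agent.V7H75.HF

open Encodable Pool.Agent.Helper227
open Pool.Agent.H548R2.Post (hlt En res res_le En_iff_res res_le_of_hlt primrec_hlt t15_res_zero
  tLe_jump_of_limit not_jump_le chr)
open Pool.Agent.H869R3.RT (PostIndex tLe_of_fun2)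

/-- the class of `X` at level `n` -/
def Cl (c : ℕ → ℕ) (T : ℕ → (ℕ → Bool) → ℕ → Bool) (R : ℕ → (ℕ → Bool) → ℕ → Prop) (n : ℕ)
    (X : ℕ → Bool) : Set (ℕ → Bool) := {Y | ∃ k < c n, R n X k ∧ Y = T k X}

/-- `T 0, T 1, ...` are maps of the Cantor space closed under composition, and the sets
`Cl c T R n X` are the classes of an equivalence relation, for each `n`. -/
structure Sys (m : ℕ → ℕ → ℕ) (c : ℕ → ℕ) (T : ℕ → (ℕ → Bool) → ℕ → Bool)
    (R : ℕ → (ℕ → Bool) → ℕ → Prop) : Prop where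
  comp : ∀ j k X, T j (T k X) = T (m j k) X
  one : ∀ X, T 0 X = X
  self : ∀ n X, X ∈ Cl c T R n X
  eq : ∀ n X Y, Y ∈ Cl c T R n X → Cl c T R n Y = Cl c T R n X

variable {m : ℕ → ℕ → ℕ} {c : ℕ → ℕ} {T : ℕ → (ℕ → Bool) → ℕ → Bool}
  {R : ℕ → (ℕ → Bool) → ℕ → Prop}

theorem Cl_sub (n : ℕ) (X : ℕ → Bool) :
    Cl c T R n X ⊆ (fun k => T k X) '' (Finset.range (c n) : Set ℕ) := by
  rintro Y ⟨k, hk, -, rfl⟩
  exact ⟨k, by simpa using hk, rfl⟩

theorem Sys.isCls (h : Sys m c T R) : IsCls c (Cl c T R) where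
  self := h.self
  eq := h.eq
  fin n X := ((Finset.finite_toSet _).image _).subset (Cl_sub n X)
  card n X := by
    refine (Set.ncard_le_ncard (Cl_sub n X) ((Finset.finite_toSet _).image _)).trans ?_
    refine (Set.ncard_image_le (Finset.finite_toSet _)).trans ?_
    rw [Set.ncard_coe_finset, Finset.card_range]

/-! ### the atomic predicates -/

theorem hlt_UD : UD fun V (x : (ℕ × ℕ × ℕ) × ℕ) => hlt x.1.1 x.1.2.1 x.1.2.2 (pre V x.2) = true := by
  refine UD.of_pre (P := fun y : List Bool × ((ℕ × ℕ × ℕ) × ℕ) =>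
    hlt y.2.1.1 y.2.1.2.1 y.2.1.2.2 y.1 = true) ?_ Computable.snd
  have h := primrec_hlt.comp (f := fun x : ℕ × ℕ × ℕ × List Bool => hlt x.1 x.2.1 x.2.2.1 x.2.2.2)
    (g := fun y : List Bool × ((ℕ × ℕ × ℕ) × ℕ) => (y.2.1.1, (y.2.1.2.1, (y.2.1.2.2, y.1))))
    ((Primrec.fst.comp (Primrec.fst.comp Primrec.snd)).pair
      ((Primrec.fst.comp (Primrec.snd.comp (Primrec.fst.comp Primrec.snd))).pair
        ((Primrec.snd.comp (Primrec.snd.comp (Primrec.fst.comp Primrec.snd))).pair Primrec.fst)))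
  exact Primrec.eq.comp h (Primrec.const true)

theorem En_UD : UD fun V (x : ℕ × ℕ × ℕ) => En x.1 x.2.1 x.2.2 V := by
  refine (UD.ex_lt (p := fun V (x : ℕ × ℕ × ℕ) t => hlt x.1 x.2.1 x.2.2 (pre V t) = true)
    (f := fun x => x.1 + 1) hlt_UD (Computable.succ.comp Computable.fst)).of_eq fun V x => ?_
  unfold En
  exact exists_congr fun t => and_congr_left fun _ => Nat.lt_succ_iff

theorem res_iff (s e z : ℕ) (V : ℕ → Bool) : res s e V ≤ z ↔
    (¬ En s e e V ∨ ∃ t < s + 1, t ≤ z ∧ hlt s e e (pre V t) = true) := by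
  constructor
  · intro h
    by_cases hE : En s e e V
    · exact Or.inr ⟨res s e V, Nat.lt_succ_of_le (res_le s e V), h, En_iff_res.1 hE⟩
    · exact Or.inl hE
  · rintro (h | ⟨t, ht, h1, h2⟩)
    · rw [t15_res_zero h]
      exact Nat.zero_le _
    · exact (res_le_of_hlt (Nat.lt_succ_iff.1 ht) h2).trans h1

theorem res_UD : UD fun V (x : (ℕ × ℕ) × ℕ) => res x.1.1 x.1.2 V ≤ x.2 := by
  have h : UD fun V (x : (ℕ × ℕ) × ℕ) => (¬ En x.1.1 x.1.2 x.1.2 V ∨
      ∃ t < x.1.1 + 1, t ≤ x.2 ∧ hlt x.1.1 x.1.2 x.1.2 (pre V t) = true) := by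
    have hs : Primrec fun x : (ℕ × ℕ) × ℕ => x.1.1 := Primrec.fst.comp Primrec.fst
    have he : Primrec fun x : (ℕ × ℕ) × ℕ => x.1.2 := Primrec.snd.comp Primrec.fst
    refine UD.or (En_UD.comp (f := fun x : (ℕ × ℕ) × ℕ => (x.1.1, (x.1.2, x.1.2)))
      (hs.pair (he.pair he)).to_comp).not ?_
    refine UD.ex_lt (p := fun V (x : (ℕ × ℕ) × ℕ) t => t ≤ x.2 ∧
      hlt x.1.1 x.1.2 x.1.2 (pre V t) = true) (f := fun x => x.1.1 + 1) (UD.and ?_ ?_)
      (Primrec.succ.comp hs).to_comp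
    · exact UD.of_prim (Primrec.nat_le.comp Primrec.snd (Primrec.snd.comp Primrec.fst))
    · exact hlt_UD.comp (f := fun y : ((ℕ × ℕ) × ℕ) × ℕ => ((y.1.1.1, (y.1.1.2, y.1.1.2)), y.2))
        (((hs.comp Primrec.fst).pair ((he.comp Primrec.fst).pair
          (he.comp Primrec.fst))).pair Primrec.snd).to_comp
  exact h.of_eq fun V x => (res_iff _ _ _ _).symm

/-! ### the step of the construction -/

/-- the oracle of the row `k` with the elements put in so far -/
def GG (T : ℕ → (ℕ → Bool) → ℕ → Bool) (W : ℕ → Bool) (k : ℕ) : ℕ → Bool :=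
  join (T k (evn W)) (fun y => odd W (encode (k, y)))

def GoodR (m : ℕ → ℕ → ℕ) (c : ℕ → ℕ) (T : ℕ → (ℕ → Bool) → ℕ → Bool)
    (R : ℕ → (ℕ → Bool) → ℕ → Prop) (W : ℕ → Bool) (s n k z : ℕ) : Prop :=
  gb c n ≤ z ∧ ((∀ e < n, ∀ j < c n, R n (T k (evn W)) j → res s e (GG T W (m j k)) ≤ z) ∧
    ∃ j < c n, R n (T k (evn W)) j ∧ (En s n z (T (m j k) (evn W)) ∧
      ∀ y < s, rd W (m j k, y) → ¬ En s n y (T (m j k) (evn W))))

def StepR (m : ℕ → ℕ → ℕ) (c : ℕ → ℕ) (T : ℕ → (ℕ → Bool) → ℕ → Bool)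
    (R : ℕ → (ℕ → Bool) → ℕ → Prop) (W : ℕ → Bool) (x : ℕ × ℕ × ℕ) : Prop :=
  rd W x.2 ∨ ∃ n < x.1, x.2.2 < x.1 ∧ (GoodR m c T R W x.1 n x.2.1 x.2.2 ∧
    ∀ z' < x.2.2, ¬ GoodR m c T R W x.1 n x.2.1 z')

theorem GG_eq (s : ℕ) (X : ℕ → Bool) (k : ℕ) :
    GG T (join X (cd fun y : ℕ × ℕ => A c (Cl c T R) s (T y.1 X) y.2 = true)) k =
      join (T k X) (A c (Cl c T R) s (T k X)) := by
  unfold GG
  rw [evn_join, odd_join]
  congr 1
  funext y
  rw [Bool.eq_iff_iff]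
  exact cd_encode _ _

theorem GoodR_iff (h : Sys m c T R) (s n k z : ℕ) (X : ℕ → Bool) :
    GoodR m c T R (join X (cd fun y : ℕ × ℕ => A c (Cl c T R) s (T y.1 X) y.2 = true)) s n k z ↔
      Good c (Cl c T R) (A c (Cl c T R) s) s n (T k X) z := by
  unfold GoodR Good
  simp only [evn_join, rd_join, GG_eq]
  refine and_congr_right fun _ => and_congr ?_ ?_
  · constructor
    · rintro h1 e he Y ⟨j, hj, hR, rfl⟩
      rw [h.comp]
      exact h1 e he j hj hR
    · intro h1 e he j hj hR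
      have := h1 e he (T j (T k X)) ⟨j, hj, hR, rfl⟩
      rwa [h.comp] at this
  · constructor
    · rintro ⟨j, hj, hR, h2, h3⟩
      exact ⟨T j (T k X), ⟨j, hj, hR, rfl⟩, by rwa [h.comp], by simpa only [h.comp] using h3⟩
    · rintro ⟨Y, ⟨j, hj, hR, rfl⟩, h2, h3⟩
      exact ⟨j, hj, hR, by rwa [h.comp] at h2, by simpa only [h.comp] using h3⟩

theorem StepR_iff (h : Sys m c T R) (s : ℕ) (y : ℕ × ℕ) (X : ℕ → Bool) :
    A c (Cl c T R) (s + 1) (T y.1 X) y.2 = true ↔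
      StepR m c T R (join X (cd fun y : ℕ × ℕ => A c (Cl c T R) s (T y.1 X) y.2 = true)) (s, y) := by
  rw [A_succ]
  unfold StepR Act
  simp only [rd_join, GoodR_iff h]

section comp

variable (hm : Computable₂ m) (hc : Computable c)
  (hT : UD fun B (x : ℕ × ℕ) => T x.1 B x.2 = true)
  (hR : UD fun B (x : ℕ × ℕ) => R x.1 B x.2)

theorem gb_comp (hc : Computable c) : Computable (gb c) := by
  have h6 : Computable₂ fun a b : ℕ => a + b := Primrec.nat_add.to_comp
  have h1 : Computable₂ fun (_ : ℕ) (y : ℕ × ℕ) => y.2 + c y.1 :=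
    Computable₂.comp (f := fun a b : ℕ => a + b) (g := fun r : ℕ × (ℕ × ℕ) => r.2.2)
      (h := fun r : ℕ × (ℕ × ℕ) => c r.2.1) h6
      (Computable.snd.comp Computable.snd) (hc.comp (Computable.fst.comp Computable.snd))
  have h2 := Computable.nat_rec (f := fun x : ℕ => x)
    (g := fun _ : ℕ => (0 : ℕ)) Computable.id (Computable.const 0) h1
  have h3 : Computable fun n : ℕ => ∑ i ∈ Finset.range n, c i := by
    refine h2.of_eq fun N => ?_
    induction N with
    | zero => rfl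
    | succ N ih =>
      simp only at ih ⊢
      rw [ih, Finset.sum_range_succ]
  exact Computable₂.comp (f := fun a b : ℕ => a + b) (g := fun n : ℕ => n)
    (h := fun n : ℕ => ∑ i ∈ Finset.range n, c i) h6 Computable.id h3

include hT in
theorem GG_UD : UD fun W (x : ℕ × ℕ) => GG T W x.1 x.2 = true := by
  have hd : Primrec fun x : ℕ × ℕ => x.2 / 2 := Primrec.nat_div.comp Primrec.snd (Primrec.const 2)
  have h : UD fun W (x : ℕ × ℕ) => (x.2 % 2 = 0 ∧ T x.1 (evn W) (x.2 / 2) = true) ∨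
      (¬ x.2 % 2 = 0 ∧ rd W (x.1, x.2 / 2)) := by
    have h0 : UD fun (_ : ℕ → Bool) (x : ℕ × ℕ) => x.2 % 2 = 0 :=
      UD.of_prim (Primrec.eq.comp (Primrec.nat_mod.comp Primrec.snd (Primrec.const 2))
        (Primrec.const 0))
    refine UD.or (UD.and h0 ?_) (UD.and h0.not ?_)
    · exact (UD.evn hT).comp (f := fun x : ℕ × ℕ => (x.1, x.2 / 2)) (Primrec.fst.pair hd).to_comp
    · exact UD.rd.comp (f := fun x : ℕ × ℕ => (x.1, x.2 / 2)) (Primrec.fst.pair hd).to_comp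
  refine h.of_eq fun W x => ?_
  unfold GG join rd
  by_cases hx : x.2 % 2 = 0
  · simp [hx]
  · simp [hx]

include hm hc hT hR

theorem GoodR_UD : UD fun W (x : ℕ × ℕ × ℕ × ℕ) => GoodR m c T R W x.1 x.2.1 x.2.2.1 x.2.2.2 := by
  have hs : Computable fun x : ℕ × ℕ × ℕ × ℕ => x.1 := Computable.fst
  have hn : Computable fun x : ℕ × ℕ × ℕ × ℕ => x.2.1 := Computable.fst.comp Computable.snd
  have hk : Computable fun x : ℕ × ℕ × ℕ × ℕ => x.2.2.1 :=
    Computable.fst.comp (Computable.snd.comp Computable.snd)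
  have hz : Computable fun x : ℕ × ℕ × ℕ × ℕ => x.2.2.2 :=
    Computable.snd.comp (Computable.snd.comp Computable.snd)
  have hTe : UD fun W (x : ℕ × ℕ) => T x.1 (evn W) x.2 = true := UD.evn hT
  have hRk : UD fun W (x : ℕ × (ℕ × ℕ)) => R x.2.1 (T x.1 (evn W)) x.2.2 :=
    UD.sub (F := fun W k => T k (evn W)) hTe hR
  have hres : UD fun W (x : ℕ × ((ℕ × ℕ) × ℕ)) => res x.2.1.1 x.2.1.2 (GG T W x.1) ≤ x.2.2 :=
    UD.sub (F := fun W k => GG T W k) (GG_UD hT) res_UD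
  have hen : UD fun W (x : ℕ × (ℕ × ℕ × ℕ)) => En x.2.1 x.2.2.1 x.2.2.2 (T x.1 (evn W)) :=
    UD.sub (F := fun W k => T k (evn W)) hTe En_UD
  refine UD.and ?_ (UD.and ?_ ?_)
  · exact UD.of_comp (p := fun y : ℕ × ℕ => y.1 ≤ y.2) Primrec.nat_le
      (((gb_comp hc).comp hn).pair hz)
  · refine UD.all_lt (α := ℕ × ℕ × ℕ × ℕ) (p := fun W x e => ∀ j < c x.2.1,
      R x.2.1 (T x.2.2.1 (evn W)) j → res x.1 e (GG T W (m j x.2.2.1)) ≤ x.2.2.2)
      (f := fun x => x.2.1) ?_ hn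
    refine UD.all_lt (α := (ℕ × ℕ × ℕ × ℕ) × ℕ) (p := fun W y j =>
      R y.1.2.1 (T y.1.2.2.1 (evn W)) j → res y.1.1 y.2 (GG T W (m j y.1.2.2.1)) ≤ y.1.2.2.2)
      (f := fun y => c y.1.2.1) (UD.imp ?_ ?_) (hc.comp (hn.comp Computable.fst))
    · exact hRk.comp (f := fun w : ((ℕ × ℕ × ℕ × ℕ) × ℕ) × ℕ => (w.1.1.2.2.1, (w.1.1.2.1, w.2)))
        ((hk.comp (Computable.fst.comp Computable.fst)).pair
          ((hn.comp (Computable.fst.comp Computable.fst)).pair Computable.snd))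
    · have hmj : Computable fun w : ((ℕ × ℕ × ℕ × ℕ) × ℕ) × ℕ => m w.2 w.1.1.2.2.1 :=
        hm.comp Computable.snd (hk.comp (Computable.fst.comp Computable.fst))
      exact hres.comp (f := fun w : ((ℕ × ℕ × ℕ × ℕ) × ℕ) × ℕ =>
          (m w.2 w.1.1.2.2.1, ((w.1.1.1, w.1.2), w.1.1.2.2.2)))
        (hmj.pair (((hs.comp (Computable.fst.comp Computable.fst)).pair
          (Computable.snd.comp Computable.fst)).pair
            (hz.comp (Computable.fst.comp Computable.fst))))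
  · refine UD.ex_lt (α := ℕ × ℕ × ℕ × ℕ) (p := fun W x j =>
      R x.2.1 (T x.2.2.1 (evn W)) j ∧ (En x.1 x.2.1 x.2.2.2 (T (m j x.2.2.1) (evn W)) ∧
        ∀ y < x.1, rd W (m j x.2.2.1, y) → ¬ En x.1 x.2.1 y (T (m j x.2.2.1) (evn W))))
      (f := fun x => c x.2.1) (UD.and ?_ (UD.and ?_ ?_)) (hc.comp hn)
    · exact hRk.comp (f := fun w : (ℕ × ℕ × ℕ × ℕ) × ℕ => (w.1.2.2.1, (w.1.2.1, w.2)))
        ((hk.comp Computable.fst).pair ((hn.comp Computable.fst).pair Computable.snd))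
    · have hmj : Computable fun w : (ℕ × ℕ × ℕ × ℕ) × ℕ => m w.2 w.1.2.2.1 :=
        hm.comp Computable.snd (hk.comp Computable.fst)
      exact hen.comp (f := fun w : (ℕ × ℕ × ℕ × ℕ) × ℕ =>
          (m w.2 w.1.2.2.1, (w.1.1, (w.1.2.1, w.1.2.2.2))))
        (hmj.pair ((hs.comp Computable.fst).pair ((hn.comp Computable.fst).pair
          (hz.comp Computable.fst))))
    · have hmj : Computable fun w : ((ℕ × ℕ × ℕ × ℕ) × ℕ) × ℕ => m w.1.2 w.1.1.2.2.1 :=
        hm.comp (Computable.snd.comp Computable.fst) (hk.comp (Computable.fst.comp Computable.fst))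
      refine UD.all_lt (α := (ℕ × ℕ × ℕ × ℕ) × ℕ) (p := fun W w y =>
        rd W (m w.2 w.1.2.2.1, y) → ¬ En w.1.1 w.1.2.1 y (T (m w.2 w.1.2.2.1) (evn W)))
        (f := fun w => w.1.1) (UD.imp ?_ (UD.not ?_)) (hs.comp Computable.fst)
      · exact UD.rd.comp (hmj.pair Computable.snd)
      · exact hen.comp (f := fun w : ((ℕ × ℕ × ℕ × ℕ) × ℕ) × ℕ =>
            (m w.1.2 w.1.1.2.2.1, (w.1.1.1, (w.1.1.2.1, w.2))))
          (hmj.pair ((hs.comp (Computable.fst.comp Computable.fst)).pair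
            ((hn.comp (Computable.fst.comp Computable.fst)).pair Computable.snd)))

theorem StepR_UD : UD fun W (x : ℕ × ℕ × ℕ) => StepR m c T R W x := by
  have hg := GoodR_UD hm hc hT hR
  refine UD.or (UD.rd.comp Computable.snd) ?_
  refine UD.ex_lt (α := ℕ × ℕ × ℕ) (p := fun W x n => x.2.2 < x.1 ∧
    (GoodR m c T R W x.1 n x.2.1 x.2.2 ∧ ∀ z' < x.2.2, ¬ GoodR m c T R W x.1 n x.2.1 z'))
    (f := fun x => x.1) (UD.and ?_ (UD.and ?_ ?_)) Computable.fst
  · exact UD.of_prim (Primrec.nat_lt.comp (Primrec.snd.comp (Primrec.snd.comp Primrec.fst))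
      (Primrec.fst.comp Primrec.fst))
  · exact hg.comp (f := fun y : (ℕ × ℕ × ℕ) × ℕ => (y.1.1, (y.2, (y.1.2.1, y.1.2.2))))
      ((Primrec.fst.comp Primrec.fst).pair (Primrec.snd.pair (Primrec.snd.comp Primrec.fst))).to_comp
  · refine UD.all_lt (α := (ℕ × ℕ × ℕ) × ℕ) (p := fun W y z' =>
      ¬ GoodR m c T R W y.1.1 y.2 y.1.2.1 z') (f := fun y => y.1.2.2) (UD.not ?_)
      (Primrec.snd.comp (Primrec.snd.comp Primrec.fst)).to_comp
    exact hg.comp (f := fun w : ((ℕ × ℕ × ℕ) × ℕ) × ℕ => (w.1.1.1, (w.1.2, (w.1.1.2.1, w.2))))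
      ((Primrec.fst.comp (Primrec.fst.comp Primrec.fst)).pair ((Primrec.snd.comp Primrec.fst).pair
        ((Primrec.fst.comp (Primrec.snd.comp (Primrec.fst.comp Primrec.fst))).pair
          Primrec.snd))).to_comp

theorem A_UD (h : Sys m c T R) : UD fun B (x : ℕ × ℕ) => A c (Cl c T R) x.1 B x.2 = true := by
  have h1 : UD fun B (x : ℕ × (ℕ × ℕ)) => A c (Cl c T R) x.1 (T x.2.1 B) x.2.2 = true := by
    refine UD.iter' (Y := fun B s (y : ℕ × ℕ) => A c (Cl c T R) s (T y.1 B) y.2 = true)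
      (S := fun W x => StepR m c T R W x) ?_ (StepR_UD hm hc hT hR) fun B s y => StepR_iff h s y B
    refine (UD.of_prim (PP.const False)).of_eq fun B y => ?_
    simp [A]
  refine (h1.comp (f := fun x : ℕ × ℕ => (x.1, (0, x.2)))
    (Computable.fst.pair ((Computable.const 0).pair Computable.snd))).of_eq fun B x => ?_
  rw [h.one]

end comp

/-! ### the operator -/

theorem W_U1 (hA : UD fun B (x : ℕ × ℕ) => A c (Cl c T R) x.1 B x.2 = true) :
    U1 fun B (n : ℕ) => W c (Cl c T R) B n = true := by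
  have h : U1 fun B (n : ℕ) => (n % 2 = 0 ∧ B (n / 2) = true) ∨
      (¬ n % 2 = 0 ∧ ∃ s, A c (Cl c T R) s B (n / 2) = true) := by
    have hd : Primrec fun n : ℕ => n / 2 := Primrec.nat_div.comp Primrec.id (Primrec.const 2)
    have h0 : PrimrecPred fun n : ℕ => n % 2 = 0 :=
      Primrec.eq.comp (Primrec.nat_mod.comp Primrec.id (Primrec.const 2)) (Primrec.const 0)
    refine U1.or (U1.and (U1.of_prim h0) (UD.query.pos.comp hd.to_comp))
      (U1.and (U1.of_prim h0.not) ?_)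
    refine U1.ex (p := fun B (n s : ℕ) => A c (Cl c T R) s B (n / 2) = true) ?_
    exact hA.pos.comp (f := fun x : ℕ × ℕ => (x.2, x.1 / 2))
      (Primrec.snd.pair (hd.comp Primrec.fst)).to_comp
  refine h.of_eq fun B n => ?_
  unfold W join
  by_cases hn : n % 2 = 0
  · simp [hn]
  · simp [hn]

theorem W_le_jump {e : ℕ} (he : ∀ X : ℕ → Bool, WE X e = {x | W c (Cl c T R) X x = true})
    (X : ℕ → Bool) : TLe (W c (Cl c T R) X) (jump X) := by
  have h0 : SI X fun m : ℕ => W c (Cl c T R) X m = true := by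
    have h1 : SI X fun m : ℕ => m ∈ WE X e := SI.iff_ceIn.1 (ceIn_iff_exists_WE.2 ⟨e, rfl⟩)
    refine h1.of_eq fun m => ?_
    rw [he X]
    exact Iff.rfl
  rw [tLe_iff_SI]
  obtain ⟨h2, h3⟩ := h0.decide_jump
  have h4 : SI (jump X) fun x : ℕ × Bool =>
      (W c (Cl c T R) X x.1 = true ∧ x.2 = true) ∨ (¬ W c (Cl c T R) X x.1 = true ∧ x.2 = false) := by
    refine SI.or (SI.and (h2.comp Primrec.fst) (SI.of_prim ?_))
      (SI.and (h3.comp (f := fun x : ℕ × Bool => x.1) Primrec.fst) (SI.of_prim ?_))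
    · exact Primrec.eq.comp Primrec.snd (Primrec.const true)
    · exact Primrec.eq.comp Primrec.snd (Primrec.const false)
  refine h4.of_eq fun x => ?_
  rcases x with ⟨n, b⟩
  cases b <;> simp

theorem low (hA : UD fun B (x : ℕ × ℕ) => A c (Cl c T R) x.1 B x.2 = true)
    (h : IsCls c (Cl c T R)) (X : ℕ → Bool) : TLe (jump (W c (Cl c T R) X)) (jump X) := by
  have h0 : UD fun B (x : Unit × ℕ × ℕ) => True := UD.of_prim (PP.const True)
  have hJ : UD fun B (x : ℕ × ℕ) => join B (A c (Cl c T R) x.1 B) x.2 = true := by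
    have hd : Primrec fun x : ℕ × ℕ => x.2 / 2 := Primrec.nat_div.comp Primrec.snd (Primrec.const 2)
    have h1 : UD fun B (x : ℕ × ℕ) => (x.2 % 2 = 0 ∧ B (x.2 / 2) = true) ∨
        (¬ x.2 % 2 = 0 ∧ A c (Cl c T R) x.1 B (x.2 / 2) = true) := by
      have h0 : UD fun (_ : ℕ → Bool) (x : ℕ × ℕ) => x.2 % 2 = 0 :=
        UD.of_prim (Primrec.eq.comp (Primrec.nat_mod.comp Primrec.snd (Primrec.const 2))
          (Primrec.const 0))
      refine UD.or (UD.and h0 (UD.query.comp hd.to_comp)) (UD.and h0.not ?_)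
      exact hA.comp (f := fun x : ℕ × ℕ => (x.1, x.2 / 2)) (Primrec.fst.pair hd).to_comp
    refine h1.of_eq fun W x => ?_
    unfold join
    by_cases hx : x.2 % 2 = 0
    · simp [hx]
    · simp [hx]
  have hE : UD fun B (x : ℕ × (ℕ × ℕ × ℕ)) =>
      En x.2.1 x.2.2.1 x.2.2.2 (join B (A c (Cl c T R) x.1 B)) :=
    UD.sub (F := fun B s => join B (A c (Cl c T R) s B)) hJ En_UD
  have hE2 : UD fun B (x : ℕ × ℕ) => En x.2 x.1 x.1 (join B (A c (Cl c T R) x.2 B)) :=
    hE.comp (f := fun x : ℕ × ℕ => (x.2, (x.2, (x.1, x.1))))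
      (Primrec.snd.pair (Primrec.snd.pair (Primrec.fst.pair Primrec.fst))).to_comp
  exact tLe_jump_of_limit (p := fun e s => En s e e (join X (A c (Cl c T R) s X)))
    (hE2.pos.si X) (hE2.neg.si X) (fun e he => jump_true X e he) (fun e he => jump_false h X e he)

theorem le_W {C : ℕ → (ℕ → Bool) → Set (ℕ → Bool)} (X : ℕ → Bool) : TLe X (W c C X) := by
  have hf : Computable fun n : ℕ => 2 * n :=
    (Primrec.nat_mul.comp (Primrec.const 2) Primrec.id).to_comp
  refine tLe_of_computable hf fun n => ?_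
  rw [W_even]

theorem not_W_le {C : ℕ → (ℕ → Bool) → Set (ℕ → Bool)} (hC : IsCls c C) (X : ℕ → Bool) :
    ¬ TLe (W c C X) X := by
  intro h
  have h1 : SI X (fun x : ℕ × Bool => W c C X x.1 = x.2) := tLe_iff_SI.1 h
  have hf : Primrec (fun z : ℕ => ((2 * z + 1, false) : ℕ × Bool)) := by
    refine Primrec.pair ?_ (Primrec.const false)
    exact Primrec.nat_add.comp (Primrec.nat_mul.comp (Primrec.const 2) Primrec.id) (Primrec.const 1)
  have h2 : SI X (fun z : ℕ => W c C X (2 * z + 1) = false) := h1.comp hf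
  have h3 : SI X (fun z : ℕ => z ∈ {z | ¬ ∃ s, A c C s X z = true}) := by
    refine h2.of_eq fun z => ?_
    rw [Set.mem_ofPred_eq, ← W_odd, Bool.not_eq_true]
  obtain ⟨n, hn⟩ := ceIn_iff_exists_WE.1 (SI.iff_ceIn.2 h3)
  obtain ⟨z, hz, s, hs⟩ := simple hC X n (by rw [← hn]; exact coinfinite hC X)
  rw [← hn] at hz
  exact hz ⟨s, hs⟩

theorem W_T_le {C : ℕ → (ℕ → Bool) → Set (ℕ → Bool)} (hC : IsCls c C) {X X' : ℕ → Bool}
    (h : ∃ N, ∀ n ≥ N, X' ∈ C n X) (hk : TLe X' X) : TLe (W c C X') (W c C X) := by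
  classical
  obtain ⟨b, hb⟩ := almost_equal hC X X' h
  let L : List Bool := (List.range b).map (fun z => decide (∃ s, A c C s X' z = true))
  have hk1 : TLe (fun m => X' (m / 2)) X' :=
    tLe_of_computable (f := fun m : ℕ => m / 2)
      (Primrec.nat_div.comp Primrec.id (Primrec.const 2)).to_comp (fun n => rfl)
  have hk2 : TLe (fun m => X' (m / 2)) (W c C X) :=
    TuringReducible.trans hk1 (TuringReducible.trans hk (le_W X))
  let g : ℕ × Bool × Bool → Bool := fun p =>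
    if p.1 % 2 = 0 then p.2.2 else if p.1 / 2 < b then L.getD (p.1 / 2) false else p.2.1
  have hg : Computable g := by
    have hdiv : Primrec (fun p : ℕ × Bool × Bool => p.1 / 2) :=
      Primrec.nat_div.comp Primrec.fst (Primrec.const 2)
    exact (Primrec.ite (PrimrecRel.comp Primrec.eq (Primrec.nat_mod.comp Primrec.fst
      (Primrec.const 2)) (Primrec.const 0)) (Primrec.snd.comp Primrec.snd)
      (Primrec.ite (PrimrecRel.comp Primrec.nat_lt hdiv (Primrec.const b))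
        ((Primrec.list_getD false).comp (Primrec.const L) hdiv)
        (Primrec.fst.comp Primrec.snd))).to_comp
  refine tLe_of_fun2 hg (TuringReducible.refl _) hk2 (fun m => ?_)
  rcases Nat.even_or_odd' m with ⟨n, rfl | rfl⟩
  · rw [W_even, W_even]
    have h1 : (2 * n) % 2 = 0 := by omega
    have h2 : (2 * n) / 2 = n := by omega
    simp only [g, h1, h2, if_true]
  · have h1 : (2 * n + 1) % 2 = 1 := by omega
    have h2 : (2 * n + 1) / 2 = n := by omega
    simp only [g, h1, h2]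
    rw [if_neg (by norm_num)]
    by_cases hn : n < b
    · rw [if_pos hn]
      have h3 : L.getD n false = decide (∃ s, A c C s X' n = true) := by
        simp [L, List.getD_eq_getElem?_getD, hn]
      rw [h3, Bool.eq_iff_iff, W_odd, decide_eq_true_iff]
    · rw [if_neg hn, Bool.eq_iff_iff, W_odd, W_odd]
      exact (hb n (by omega)).symm

theorem chr_eq (X : ℕ → Bool) : chr {m | X m = true} = X := by
  funext m
  simp [chr]

/-- the solution to Post's problem for effectively hyperfinite relations -/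
theorem main_sys (h : Sys m c T R) (hm : Computable₂ m) (hc : Computable c)
    (hT : UD fun B (x : ℕ × ℕ) => T x.1 B x.2 = true) (hR : UD fun B (x : ℕ × ℕ) => R x.1 B x.2) :
    ∃ e : ℕ, PostIndex e ∧ ∀ X Y : ℕ → Bool, (∃ N, ∀ n ≥ N, Y ∈ Cl c T R n X) →
      TLe (chr (WE X e)) (chr (WE Y e)) ∧ TLe (chr (WE Y e)) (chr (WE X e)) := by
  have hA := A_UD hm hc hT hR h
  have hC := h.isCls
  obtain ⟨e, he⟩ := U1.index (W_U1 hA)
  have hle : ∀ X Y : ℕ → Bool, (∃ N, ∀ n ≥ N, Y ∈ Cl c T R n X) → TLe Y X := by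
    rintro X Y ⟨N, hN⟩
    obtain ⟨k, -, -, rfl⟩ := hN N le_rfl
    rw [tLe_iff_SI]
    have h1 : U1 fun B (x : (ℕ × ℕ) × Bool) => T x.1.1 B x.1.2 = x.2 :=
      UD.graph (F := fun B (x : ℕ × ℕ) => T x.1 B x.2) hT
    exact (h1.comp (f := fun x : ℕ × Bool => ((k, x.1), x.2))
      (((Computable.const k).pair Computable.fst).pair Computable.snd)).si X
  refine ⟨e, fun X => ?_, fun X Y hXY => ?_⟩
  · rw [he X, chr_eq]
    exact ⟨le_W X, not_W_le hC X, W_le_jump he X,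
      fun h => not_jump_le _ (TuringReducible.trans (low hA hC X) h), low hA hC X⟩
  · rw [he X, he Y, chr_eq, chr_eq]
    have hYX : ∃ N, ∀ n ≥ N, X ∈ Cl c T R n Y := by
      obtain ⟨N, hN⟩ := hXY
      refine ⟨N, fun n hn => ?_⟩
      rw [hC.eq n X Y (hN n hn)]
      exact hC.self n X
    exact ⟨W_T_le hC hYX (hle Y X hYX), W_T_le hC hXY (hle X Y hXY)⟩

end Pool.Agent.V7H75.HF
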