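import Pool.Agent.V7H75.HF.Eff
import Pool.Agent.V7H75.HF.Cons

set_option autoImplicit false

/-!
Solutions to Post's problem which are invariant under a computable homeomorphism of the Cantor space.
-/

namespace Pool.Agent.V7H75.HF

open Encodable Pool.Agent.Helper227
open Pool.Agent.H548R2.Post (chr)
open Pool.Agent.H869R3.RT (PostIndex)

/-- the integer with the code `k` -/
def dz (k : ℕ) : ℤ := Denumerable.ofNat ℤ k

theorem dz_encode (z : ℤ) : dz (encode z) = z := Denumerable.ofNat_encode z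

theorem dz_zero : dz 0 = 0 := by
  have h : encode (0 : ℤ) = 0 := by
    rw [encZ]
    simp
  rw [← h, dz_encode]

theorem dz_comp : Computable dz := (Primrec.ofNat ℤ).to_comp

theorem orb_add (T : Equiv.Perm (ℕ → Bool)) (X : ℕ → Bool) (i j : ℤ) :
    orb T (orb T X i) j = orb T X (j + i) := by
  unfold orb
  rw [zpow_add, Equiv.Perm.mul_apply]

theorem orb_zero (T : Equiv.Perm (ℕ → Bool)) (X : ℕ → Bool) : orb T X 0 = X := rfl

theorem orb_shift (T : Equiv.Perm (ℕ → Bool)) (X : ℕ → Bool) (d : ℤ) :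
    orb T (orb T X d) = fun i => orb T X (i + d) := by
  funext i
  exact orb_add T X d i

/-- multiplication of the indices -/
def mz (j k : ℕ) : ℕ := encode (dz j + dz k)

/-- the bounds -/
def cz (n : ℕ) : ℕ := 4 * gp n + 1

/-- the indices of the members of the class -/
def Rz (T : Equiv.Perm (ℕ → Bool)) (n : ℕ) (X : ℕ → Bool) (k : ℕ) : Prop :=
  sm (Q (orb T X) n) 0 (dz k)

theorem mem_Cl {T : Equiv.Perm (ℕ → Bool)} {n : ℕ} {X Y : ℕ → Bool} :
    Y ∈ Cl cz (fun k X => orb T X (dz k)) (Rz T) n X ↔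
      ∃ i : ℤ, sm (Q (orb T X) n) 0 i ∧ Y = orb T X i := by
  constructor
  · rintro ⟨k, -, h1, h2⟩
    exact ⟨dz k, h1, h2⟩
  · rintro ⟨i, h1, h2⟩
    refine ⟨encode i, ?_, ?_, ?_⟩
    · have h3 := smQ_bound h1
      rw [abs_le] at h3
      rw [encZ]
      unfold cz
      split_ifs <;> omega
    · show sm _ 0 (dz (encode i))
      rwa [dz_encode]
    · show Y = orb T X (dz (encode i))
      rwa [dz_encode]

theorem sys (T : Equiv.Perm (ℕ → Bool)) : Sys mz cz (fun k X => orb T X (dz k)) (Rz T) where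
  comp j k X := by
    show orb T (orb T X (dz k)) (dz j) = orb T X (dz (mz j k))
    rw [orb_add, mz, dz_encode]
  one X := by
    show orb T X (dz 0) = X
    rw [dz_zero, orb_zero]
  self n X := mem_Cl.2 ⟨0, sm_refl _ _, (orb_zero T X).symm⟩
  eq n X Y h := by
    obtain ⟨d, hd, rfl⟩ := mem_Cl.1 h
    have key : ∀ i : ℤ, sm (Q (orb T (orb T X d)) n) 0 i ↔ sm (Q (orb T X) n) 0 (i + d) := by
      intro i
      have h1 : sm (Q (orb T (orb T X d)) n) 0 i ↔ sm (Q (orb T X) n) (0 + d) (i + d) := by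
        refine sm_shift fun j => ?_
        rw [orb_shift]
        exact QU_shift (orb T X) d n false j
      rw [h1, zero_add]
      exact ⟨fun h => sm_trans hd h, fun h => sm_trans (sm_symm hd) h⟩
    ext Z
    rw [mem_Cl, mem_Cl]
    constructor
    · rintro ⟨i, hi, rfl⟩
      exact ⟨i + d, (key i).1 hi, orb_add T X d i⟩
    · rintro ⟨i, hi, rfl⟩
      refine ⟨i - d, (key (i - d)).2 (by rwa [sub_add_cancel]), ?_⟩
      rw [orb_add, sub_add_cancel]

theorem orb_per (T : Equiv.Perm (ℕ → Bool)) (X : ℕ → Bool) (a b : ℤ) (h : orb T X a = orb T X b)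
    (i : ℤ) : orb T X (i + (b - a)) = orb T X i := by
  have h1 : orb T (orb T X b) (i - a) = orb T X (i + (b - a)) := by
    rw [orb_add]
    congr 1
    ring
  have h2 : orb T (orb T X a) (i - a) = orb T X i := by
    rw [orb_add]
    congr 1
    ring
  rw [← h1, ← h, h2]

theorem main_perm (T : Equiv.Perm (ℕ → Bool)) (hT : UD fun B (n : ℕ) => T B n = true)
    (hT' : UD fun B (n : ℕ) => T.symm B n = true) :
    ∃ e : ℕ, PostIndex e ∧ ∀ X : ℕ → Bool,
      TLe (chr (WE X e)) (chr (WE (T X) e)) ∧ TLe (chr (WE (T X) e)) (chr (WE X e)) := by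
  have hm : Computable₂ mz :=
    Computable.encode.comp (comp_addZ (f := fun x : ℕ × ℕ => dz x.1) (g := fun x : ℕ × ℕ => dz x.2)
      (dz_comp.comp Computable.fst) (dz_comp.comp Computable.snd))
  have hc : Computable cz :=
    (Primrec.succ.comp (Primrec.nat_mul.comp (Primrec.const 4) Primrec.id)).to_comp.comp gp_comp
  have h1 : UD fun B (x : ℕ × ℕ) => orb T B (dz x.1) x.2 = true :=
    (orb_UD hT hT').comp (f := fun x : ℕ × ℕ => (dz x.1, x.2))
      ((dz_comp.comp Computable.fst).pair Computable.snd)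
  have h2 : UD fun B (x : ℕ × ℕ) => Rz T x.1 B x.2 :=
    (smQ_UD hT hT').comp (f := fun x : ℕ × ℕ => (x.1, ((0 : ℤ), dz x.2)))
      (Computable.fst.pair ((Computable.const 0).pair (dz_comp.comp Computable.snd)))
  obtain ⟨e, h3, h4⟩ := main_sys (sys T) hm hc h1 h2
  refine ⟨e, h3, fun X => h4 X (T X) ?_⟩
  obtain ⟨N, hN⟩ := link (orb T X) (orb_per T X)
  refine ⟨N, fun n hn => mem_Cl.2 ?_⟩
  obtain ⟨i, hi, h5⟩ := hN n hn
  exact ⟨i, hi, h5.symm⟩

/-- `T` is a truth-table functional: for computable `δ` and `u`, the value of `T X` at `n` is `δ` of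
`n` and the initial segment of `X` of length `u n`. -/
def TT (T : (ℕ → Bool) → ℕ → Bool) : Prop :=
  ∃ (δ : ℕ × List Bool → Bool) (u : ℕ → ℕ), Computable δ ∧ Computable u ∧
    ∀ X n, T X n = δ (n, (List.range (u n)).map X)

theorem TT.ud {T : (ℕ → Bool) → ℕ → Bool} (h : TT T) : UD fun B (n : ℕ) => T B n = true := by
  obtain ⟨δ, u, hδ, hu, h⟩ := h
  have h1 : ∀ b : Bool, U1 fun B (n : ℕ) => δ (n, pre B (u n)) = b := by
    intro b
    have h2 : S1 fun x : List Bool × ℕ => δ (x.2, x.1) = b := by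
      have h3 : S1 fun y : Bool => y = b := S1.of_prim (Primrec.eq.comp Primrec.id (Primrec.const b))
      exact h3.comp_computable (f := fun x : List Bool × ℕ => δ (x.2, x.1))
        (hδ.comp (Computable.snd.pair Computable.fst))
    exact U1.of_pre h2 hu
  constructor
  · refine (h1 true).of_eq fun B n => ?_
    rw [h]
    rfl
  · refine (h1 false).of_eq fun B n => ?_
    rw [h, Bool.not_eq_true]
    rfl

theorem main_TT {T S : (ℕ → Bool) → ℕ → Bool} (hT : TT T) (hS : TT S) (h1 : ∀ X, S (T X) = X)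
    (h2 : ∀ X, T (S X) = X) :
    ∃ e : ℕ, PostIndex e ∧ ∀ X : ℕ → Bool,
      TLe (chr (WE X e)) (chr (WE (T X) e)) ∧ TLe (chr (WE (T X) e)) (chr (WE X e)) :=
  main_perm ⟨T, S, h1, h2⟩ hT.ud hS.ud

theorem TT_comp {f : ℕ → ℕ} (hf : Computable f) : TT fun X => X ∘ f := by
  refine ⟨fun x => x.2.getD (f x.1) false, fun n => f n + 1, ?_, Computable.succ.comp hf, ?_⟩
  · exact Computable₂.comp (f := fun (l : List Bool) (n : ℕ) => l.getD n false)
      (g := fun x : ℕ × List Bool => x.2) (h := fun x : ℕ × List Bool => f x.1)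
      (Primrec.list_getD false).to_comp Computable.snd (hf.comp Computable.fst)
  · intro X n
    exact (pre_getD X (f n + 1) (f n) false (Nat.lt_succ_self _)).symm

end Pool.Agent.V7H75.HF
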