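import Pool.Agent.Helper227.Use

set_option autoImplicit false

/-!
Nested markers on a line of labelled points, and cuts which avoid each point from some level on,
unless the labels are periodic.
-/

namespace Pool.Agent.V7H75.HF

open Pool.Agent.Helper227

/-- the number with the binary expansion `σ` -/
def val (σ : List Bool) : ℕ := σ.foldl (fun a b => 2 * a + cond b 1 0) 0

theorem val_pre_succ (X : ℕ → Bool) (n : ℕ) :
    val (pre X (n + 1)) = 2 * val (pre X n) + cond (X n) 1 0 := by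
  unfold val
  rw [pre_succ, List.foldl_append]
  rfl

theorem val_lt (X : ℕ → Bool) (n : ℕ) : val (pre X n) < 2 ^ n := by
  induction n with
  | zero => simp [val, pre]
  | succ n ih =>
    rw [val_pre_succ, pow_succ]
    cases X n <;> simp only [cond_false, cond_true] <;> omega

theorem val_inj {X Y : ℕ → Bool} (h : ∀ N, ∃ n ≥ N, val (pre X n) = val (pre Y n)) : X = Y := by
  have key : ∀ n, val (pre X n) = val (pre Y n) → ∀ k < n, X k = Y k := by
    intro n
    induction n with
    | zero => intro _ k hk; omega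
    | succ n ih =>
      intro h k hk
      rw [val_pre_succ, val_pre_succ] at h
      have h1 : X n = Y n := by
        cases hx : X n <;> cases hy : Y n <;> simp only [hx, hy, cond_false, cond_true] at h
        · rfl
        · omega
        · omega
        · rfl
      rw [h1] at h
      rcases Nat.lt_succ_iff_lt_or_eq.1 hk with h2 | h2
      · exact ih (by omega) k h2
      · rw [h2, h1]
  funext k
  obtain ⟨n, hn, h1⟩ := h (k + 1)
  exact key n h1 k (by omega)

/-- the label of the `j`-th point at level `n` -/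
def lab (x : ℤ → ℕ → Bool) (n : ℕ) (j : ℤ) : ℕ := val (pre (x j) n)

/-- the next set of markers -/
def nP (l : ℤ → ℕ) (n : ℕ) (P : ℤ → Prop) (j : ℤ) : Prop :=
  P j ∧ ∀ k : ℤ, |k| ≤ n → P (j + k) → l j ≤ l (j + k)

/-- the markers of level `n` -/
def P (x : ℤ → ℕ → Bool) : ℕ → ℤ → Prop
  | 0 => fun _ => True
  | n + 1 => nP (lab x (n + 1)) (n + 1) (P x n)

/-- the bound for the gaps between the markers -/
def gp : ℕ → ℕ
  | 0 => 0
  | n + 1 => gp n + 2 * ((n + 1) * 2 ^ (n + 1))

/-- `i` and `j` are not separated by an element of `P` -/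
def sm (P : ℤ → Prop) (i j : ℤ) : Prop := ∀ k, (i < k ∧ k ≤ j) ∨ (j < k ∧ k ≤ i) → ¬ P k

/-- the interval of `j` between markers is not the same as before -/
def chg (P P' : ℤ → Prop) (b : ℕ) (j : ℤ) : Prop :=
  ∃ k : ℤ, |k| ≤ b ∧ (sm P' (j + k) j ∧ P (j + k) ∧ ¬ P' (j + k))

/-- the next set of cuts -/
def nQ (P P' Q U : ℤ → Prop) (b : ℕ) (j : ℤ) : Prop :=
  (¬ chg P P' b j ∧ Q j) ∨
    (chg P P' b j ∧ (¬ U j ∧ ∀ k : ℤ, |k| ≤ b → (k < 0 ∧ sm P' (j + k) j) → U (j + k)))

/-- the next set of used points -/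
def nU (P P' Q U : ℤ → Prop) (b : ℕ) (j : ℤ) : Prop := U j ∨ (chg P P' b j ∧ nQ P P' Q U b j)

/-- the cuts (`false`) and the used points (`true`) of level `n` -/
def QU (x : ℤ → ℕ → Bool) : ℕ → Bool → ℤ → Prop
  | 0 => fun b _ => b = false
  | n + 1 => fun b j =>
    if b = true then nU (P x n) (P x (n + 1)) (QU x n false) (QU x n true) (gp (n + 1)) j
    else nQ (P x n) (P x (n + 1)) (QU x n false) (QU x n true) (gp (n + 1)) j

abbrev Q (x : ℤ → ℕ → Bool) (n : ℕ) : ℤ → Prop := QU x n false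

abbrev U (x : ℤ → ℕ → Bool) (n : ℕ) : ℤ → Prop := QU x n true

variable {x : ℤ → ℕ → Bool}

theorem Q_succ {n : ℕ} {j : ℤ} : Q x (n + 1) j ↔ nQ (P x n) (P x (n + 1)) (Q x n) (U x n) (gp (n + 1)) j := by
  simp [Q, U, QU]

theorem U_succ {n : ℕ} {j : ℤ} : U x (n + 1) j ↔ nU (P x n) (P x (n + 1)) (Q x n) (U x n) (gp (n + 1)) j := by
  simp [Q, U, QU]

theorem P_succ {n : ℕ} {j : ℤ} : P x (n + 1) j ↔ P x n j ∧
    ∀ k : ℤ, |k| ≤ ((n + 1 : ℕ) : ℤ) → P x n (j + k) → lab x (n + 1) j ≤ lab x (n + 1) (j + k) := Iff.rfl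

theorem P_anti {n m : ℕ} (h : n ≤ m) {j : ℤ} (hj : P x m j) : P x n j := by
  induction h with
  | refl => exact hj
  | step _ ih => exact ih (P_succ.1 hj).1

theorem chain (n v : ℕ) : ∀ i : ℤ, P x n i → lab x (n + 1) i ≤ v →
    ∃ i' : ℤ, |i' - i| ≤ (((n + 1) * v : ℕ) : ℤ) ∧ P x (n + 1) i' := by
  induction v with
  | zero =>
    intro i hi hv
    refine ⟨i, by simp, P_succ.2 ⟨hi, fun k _ _ => by omega⟩⟩
  | succ v ih =>
    intro i hi hv
    by_cases h : P x (n + 1) i
    · exact ⟨i, by simp only [sub_self, abs_zero]; positivity, h⟩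
    · rw [P_succ] at h
      push Not at h
      obtain ⟨k, hk, h1, h2⟩ := h hi
      obtain ⟨i', h3, h4⟩ := ih (i + k) h1 (by omega)
      refine ⟨i', ?_, h4⟩
      have h5 : |i' - i| ≤ |i' - (i + k)| + |k| := by
        have := abs_add_le (i' - (i + k)) k
        rwa [show i' - (i + k) + k = i' - i by ring] at this
      push_cast at *
      nlinarith

theorem gap (x : ℤ → ℕ → Bool) (n : ℕ) : ∀ j : ℤ, ∃ i : ℤ, j ≤ i ∧ i ≤ j + gp n ∧ P x n i := by
  induction n with
  | zero => intro j; exact ⟨j, le_rfl, by simp [gp], trivial⟩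
  | succ n ih =>
    intro j
    obtain ⟨i, h1, h2, h3⟩ := ih (j + (((n + 1) * 2 ^ (n + 1) : ℕ) : ℤ))
    obtain ⟨i', h4, h5⟩ := chain n (2 ^ (n + 1)) i h3 (val_lt _ _).le
    rw [abs_le] at h4
    refine ⟨i', ?_, ?_, h5⟩
    · linarith [h4.1]
    · simp only [gp]
      push_cast at *
      linarith [h4.2]

/-! ### the relation `sm` -/

theorem sm_refl (P : ℤ → Prop) (i : ℤ) : sm P i i := by
  rintro k (h | h) <;> omega

theorem sm_symm {P : ℤ → Prop} {i j : ℤ} (h : sm P i j) : sm P j i := fun k hk => h k hk.symm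

theorem sm_trans {P : ℤ → Prop} {i j k : ℤ} (h : sm P i j) (h' : sm P j k) : sm P i k := by
  rintro m hm
  by_cases h1 : m ≤ j
  · rcases hm with hm | hm
    · exact h m (Or.inl ⟨hm.1, h1⟩)
    · exact h' m (Or.inr ⟨hm.1, h1⟩)
  · rcases hm with hm | hm
    · exact h' m (Or.inl ⟨by omega, hm.2⟩)
    · exact h m (Or.inr ⟨by omega, hm.2⟩)

theorem sm_mono {P P' : ℤ → Prop} (h : ∀ j, P' j → P j) {i j : ℤ} (hs : sm P i j) : sm P' i j :=
  fun k hk hp => hs k hk (h k hp)

theorem sm_bound {n : ℕ} {i j : ℤ} (h : sm (P x n) i j) : |i - j| ≤ gp n := by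
  rw [abs_le]
  constructor
  · obtain ⟨m, h1, h2, h3⟩ := gap x n (i + 1)
    by_contra hc
    exact h m (Or.inl ⟨by omega, by omega⟩) h3
  · obtain ⟨m, h1, h2, h3⟩ := gap x n (j + 1)
    by_contra hc
    exact h m (Or.inr ⟨by omega, by omega⟩) h3

theorem chg_iff {n : ℕ} {j : ℤ} : chg (P x n) (P x (n + 1)) (gp (n + 1)) j ↔
    ∃ i, sm (P x (n + 1)) i j ∧ P x n i ∧ ¬ P x (n + 1) i := by
  constructor
  · rintro ⟨k, _, h⟩
    exact ⟨_, h⟩
  · rintro ⟨i, h1, h2⟩
    have h3 := sm_bound h1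
    refine ⟨i - j, h3, ?_⟩
    rw [show j + (i - j) = i by ring]
    exact ⟨h1, h2⟩

theorem chg_congr {n : ℕ} {i j : ℤ} (h : sm (P x (n + 1)) i j) :
    chg (P x n) (P x (n + 1)) (gp (n + 1)) i ↔ chg (P x n) (P x (n + 1)) (gp (n + 1)) j := by
  rw [chg_iff, chg_iff]
  exact exists_congr fun k => and_congr_left fun _ =>
    ⟨fun h' => sm_trans h' h, fun h' => sm_trans h' (sm_symm h)⟩

theorem sm_of_not_chg {n : ℕ} {i j : ℤ} (hc : ¬ chg (P x n) (P x (n + 1)) (gp (n + 1)) j)
    (h : sm (P x (n + 1)) i j) : sm (P x n) i j := by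
  intro k hk hp
  apply hc
  rw [chg_iff]
  refine ⟨k, ?_, hp, h k hk⟩
  intro m hm
  refine h m ?_
  omega

theorem first_iff {n : ℕ} {j : ℤ} : (∀ k : ℤ, |k| ≤ gp (n + 1) →
      (k < 0 ∧ sm (P x (n + 1)) (j + k) j) → U x n (j + k)) ↔
    ∀ i, i < j → sm (P x (n + 1)) i j → U x n i := by
  constructor
  · intro h i hi hs
    have := h (i - j) (sm_bound hs) ⟨by omega, by rwa [show j + (i - j) = i by ring]⟩
    rwa [show j + (i - j) = i by ring] at this
  · intro h k _ hk
    exact h (j + k) (by omega) hk.2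

/-- the invariants of the construction -/
theorem inv (n : ℕ) : (∀ j, ∃ i, sm (P x n) i j ∧ Q x n i) ∧
    (∀ i j, sm (P x n) i j → Q x n i → Q x n j → i = j) ∧
    (∀ j, ∃ i, sm (P x n) i j ∧ ¬ U x n i) := by
  induction n with
  | zero =>
    refine ⟨fun j => ⟨j, sm_refl _ _, rfl⟩, fun i j h _ _ => ?_, fun j => ⟨j, sm_refl _ _, ?_⟩⟩
    · by_contra hne
      rcases lt_or_gt_of_ne hne with h1 | h1
      · exact h j (Or.inl ⟨h1, le_rfl⟩) trivial
      · exact h i (Or.inr ⟨h1, le_rfl⟩) trivial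
    · intro h
      exact absurd (show true = false from h) (by simp)
  | succ n ih =>
    obtain ⟨ha, hb, hc⟩ := ih
    have hsub : ∀ j, P x (n + 1) j → P x n j := fun j h => h.1
    refine ⟨fun j => ?_, fun i j hs hi hj => ?_, fun j => ?_⟩
    · by_cases hch : chg (P x n) (P x (n + 1)) (gp (n + 1)) j
      · obtain ⟨i, hi, hu⟩ := hc j
        obtain ⟨lb, h1, h2⟩ := Int.exists_least_of_bdd
          (P := fun i => sm (P x (n + 1)) i j ∧ ¬ U x n i)
          ⟨j - gp (n + 1), fun z hz => by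
            have := sm_bound hz.1
            rw [abs_le] at this
            omega⟩ ⟨i, sm_mono hsub hi, hu⟩
        refine ⟨lb, h1.1, Q_succ.2 (Or.inr ⟨(chg_congr h1.1).2 hch, h1.2, ?_⟩)⟩
        rw [first_iff]
        intro k hk hs
        by_contra hu
        have := h2 k ⟨sm_trans hs h1.1, hu⟩
        omega
      · obtain ⟨i, hi, hq⟩ := ha j
        have hs := sm_mono hsub hi
        exact ⟨i, hs, Q_succ.2 (Or.inl ⟨fun h => hch ((chg_congr hs).1 h), hq⟩)⟩
    · rw [Q_succ] at hi hj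
      unfold nQ at hi hj
      by_cases hch : chg (P x n) (P x (n + 1)) (gp (n + 1)) j
      · have hch' := (chg_congr hs).2 hch
        rcases hi with hi | hi
        · exact absurd hch' hi.1
        rcases hj with hj | hj
        · exact absurd hch hj.1
        obtain ⟨-, hi1, hi2⟩ := hi
        obtain ⟨-, hj1, hj2⟩ := hj
        rw [first_iff] at hi2 hj2
        by_contra hne
        rcases lt_or_gt_of_ne hne with h1 | h1
        · exact hi1 (hj2 i h1 hs)
        · exact hj1 (hi2 j h1 (sm_symm hs))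
      · have hch' : ¬ chg (P x n) (P x (n + 1)) (gp (n + 1)) i := fun h => hch ((chg_congr hs).1 h)
        rcases hi with hi | hi
        · rcases hj with hj | hj
          · exact hb i j (sm_of_not_chg hch hs) hi.2 hj.2
          · exact absurd hj.1 hch
        · exact absurd hi.1 hch'
    · by_cases hch : chg (P x n) (P x (n + 1)) (gp (n + 1)) j
      · obtain ⟨i0, h1, h2, h3⟩ := chg_iff.1 hch
        obtain ⟨u1, hu1, hv1⟩ := hc (i0 - 1)
        obtain ⟨u2, hu2, hv2⟩ := hc i0
        have hl1 : u1 < i0 := by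
          by_contra h
          exact hu1 i0 (Or.inr ⟨by omega, by omega⟩) h2
        have hl2 : i0 ≤ u2 := by
          by_contra h
          exact hu2 i0 (Or.inl ⟨by omega, le_rfl⟩) h2
        have hs2 : sm (P x (n + 1)) u2 j := sm_trans (sm_mono hsub hu2) h1
        have hs0 : sm (P x (n + 1)) (i0 - 1) i0 := by
          rintro k (hk | hk)
          · have : k = i0 := by omega
            rw [this]
            exact h3
          · omega
        have hs1 : sm (P x (n + 1)) u1 u2 :=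
          sm_trans (sm_mono hsub hu1) (sm_trans hs0 (sm_symm (sm_mono hsub hu2)))
        refine ⟨u2, hs2, fun hU => ?_⟩
        rcases U_succ.1 hU with hU | ⟨hU, hq⟩
        · exact hv2 hU
        · rcases hq with hq | hq
          · exact hq.1 hU
          · have := first_iff.1 hq.2.2 u1 (by omega) hs1
            exact hv1 this
      · obtain ⟨i, hi, hu⟩ := hc j
        have hs := sm_mono hsub hi
        refine ⟨i, hs, fun hU => ?_⟩
        rcases U_succ.1 hU with hU | ⟨hU, _⟩
        · exact hu hU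
        · exact hch ((chg_congr hs).1 hU)

theorem U_mono {n m : ℕ} (h : n ≤ m) {j : ℤ} (hj : U x n j) : U x m j := by
  induction h with
  | refl => exact hj
  | step _ ih => exact U_succ.2 (Or.inl ih)

/-- there is a cut in each sufficiently long interval -/
theorem cut (x : ℤ → ℕ → Bool) (n : ℕ) (j : ℤ) : ∃ i : ℤ, j ≤ i ∧ i ≤ j + 2 * gp n ∧ Q x n i := by
  obtain ⟨p, h1, h2, h3⟩ := gap x n j
  obtain ⟨i, h4, h5⟩ := (inv n).1 p
  have h6 := sm_bound h4
  rw [abs_le] at h6
  refine ⟨i, ?_, by omega, h5⟩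
  by_contra hc
  exact h4 p (Or.inl ⟨by omega, le_rfl⟩) h3

theorem smQ_bound {n : ℕ} {i j : ℤ} (h : sm (Q x n) i j) : |i - j| ≤ 2 * gp n := by
  rw [abs_le]
  constructor
  · obtain ⟨m, h1, h2, h3⟩ := cut x n (i + 1)
    by_contra hc
    exact h m (Or.inl ⟨by omega, by omega⟩) h3
  · obtain ⟨m, h1, h2, h3⟩ := cut x n (j + 1)
    by_contra hc
    exact h m (Or.inr ⟨by omega, by omega⟩) h3

/-- a point which is cut infinitely often is in an interval between two fixed markers -/
theorem persistent {j : ℤ} (h : ∀ N, ∃ n ≥ N, Q x n j) : ∃ (n0 : ℕ) (a b : ℤ), a ≤ j ∧ j < b ∧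
    x a = x b ∧ ∀ n ≥ n0, Q x n j ∧ ∀ k, a < k → k < b → ¬ P x n k := by
  obtain ⟨n0, h0⟩ : ∃ n0, ∀ n ≥ n0, Q x (n + 1) j →
      ¬ chg (P x n) (P x (n + 1)) (gp (n + 1)) j ∧ Q x n j := by
    by_cases hU : ∃ m, U x m j
    · obtain ⟨m, hm⟩ := hU
      refine ⟨m, fun n hn hq => ?_⟩
      rcases Q_succ.1 hq with hq | hq
      · exact hq
      · exact absurd (U_mono hn hm) hq.2.1
    · push Not at hU
      refine ⟨0, fun n _ hq => ?_⟩
      rcases Q_succ.1 hq with hq' | hq'
      · exact hq'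
      · exact absurd (U_succ.2 (Or.inr ⟨hq'.1, Q_succ.1 hq⟩)) (hU (n + 1))
  have h1 : ∀ n ≥ n0, Q x n j := by
    intro n hn
    obtain ⟨N, hN, hQ⟩ := h n
    obtain ⟨d, rfl⟩ := Nat.exists_eq_add_of_le hN
    clear hN
    induction d with
    | zero => exact hQ
    | succ d ih => exact ih (h0 (n + d) (by omega) hQ).2
  have h2 : ∀ n ≥ n0, ¬ chg (P x n) (P x (n + 1)) (gp (n + 1)) j := fun n hn =>
    (h0 n hn (h1 (n + 1) (by omega))).1
  obtain ⟨a, ⟨ha1, ha2⟩, ha3⟩ := Int.exists_greatest_of_bdd (P := fun i => i ≤ j ∧ P x n0 i)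
    ⟨j, fun z hz => hz.1⟩ (by
      obtain ⟨i, h3, h4, h5⟩ := gap x n0 (j - gp n0)
      exact ⟨i, by omega, h5⟩)
  obtain ⟨b, ⟨hb1, hb2⟩, hb3⟩ := Int.exists_least_of_bdd (P := fun i => j < i ∧ P x n0 i)
    ⟨j, fun z hz => hz.1.le⟩ (by
      obtain ⟨i, h3, h4, h5⟩ := gap x n0 (j + 1)
      exact ⟨i, by omega, h5⟩)
  have h3 : ∀ n ≥ n0, ∀ k, a < k → k < b → ¬ P x n k := by
    intro n hn k h4 h5 h6
    have h7 := P_anti hn h6
    by_cases h8 : k ≤ j
    · have := ha3 k ⟨h8, h7⟩
      omega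
    · have := hb3 k ⟨by omega, h7⟩
      omega
  have h4 : ∀ n ≥ n0, P x n a ∧ P x n b := by
    intro n hn
    induction n, hn using Nat.le_induction with
    | base => exact ⟨ha2, hb2⟩
    | succ n hn ih =>
      constructor
      · by_contra hc
        refine h2 n hn (chg_iff.2 ⟨a, ?_, ih.1, hc⟩)
        rintro k (hk | hk)
        · exact h3 (n + 1) (by omega) k hk.1 (by omega)
        · omega
      · by_contra hc
        refine h2 n hn (chg_iff.2 ⟨b, ?_, ih.2, hc⟩)
        rintro k (hk | hk)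
        · omega
        · by_cases hkb : k = b
          · rw [hkb]
            exact hc
          · exact h3 (n + 1) (by omega) k (by omega) (by omega)
  refine ⟨n0, a, b, ha1, hb1, ?_, fun n hn => ⟨h1 n hn, h3 n hn⟩⟩
  refine val_inj fun N => ?_
  obtain ⟨M, hM⟩ : ∃ M : ℕ, b - a ≤ M ∧ a - b ≤ M ∧ n0 ≤ M ∧ N ≤ M :=
    ⟨(b - a).toNat + n0 + N, by omega, by omega, by omega, by omega⟩
  obtain ⟨hM1, hM2, hM3, hM4⟩ := hM
  refine ⟨M + 1, by omega, ?_⟩
  have h5 := h4 (M + 1) (by omega)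
  have h6 := h4 M hM3
  apply le_antisymm
  · have := (P_succ.1 h5.1).2 (b - a) (by rw [abs_le]; push_cast; omega)
      (by rw [show a + (b - a) = b by ring]; exact h6.2)
    rwa [show a + (b - a) = b by ring] at this
  · have := (P_succ.1 h5.2).2 (a - b) (by rw [abs_le]; push_cast; omega)
      (by rw [show b + (a - b) = a by ring]; exact h6.1)
    rwa [show b + (a - b) = a by ring] at this

/-! ### shifts -/

theorem sm_shift {P P' : ℤ → Prop} {d : ℤ} (h : ∀ j, P j ↔ P' (j + d)) {i j : ℤ} :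
    sm P i j ↔ sm P' (i + d) (j + d) := by
  constructor
  · intro hs k hk hp
    refine hs (k - d) (by omega) ?_
    rw [h, sub_add_cancel]
    exact hp
  · intro hs k hk hp
    exact hs (k + d) (by omega) ((h k).1 hp)

theorem P_shift (x : ℤ → ℕ → Bool) (d : ℤ) (n : ℕ) : ∀ j : ℤ, P (fun i => x (i + d)) n j ↔ P x n (j + d) := by
  induction n with
  | zero => intro j; exact Iff.rfl
  | succ n ih =>
    intro j
    rw [P_succ, P_succ, ih]
    refine and_congr_right fun _ => forall_congr' fun k => forall_congr' fun _ => ?_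
    rw [ih, show j + d + k = j + k + d by ring]
    rfl

theorem chg_shift {P P' R R' : ℤ → Prop} {d : ℤ} (h : ∀ j, P j ↔ R (j + d))
    (h' : ∀ j, P' j ↔ R' (j + d)) {b : ℕ} {j : ℤ} : chg P P' b j ↔ chg R R' b (j + d) := by
  unfold chg
  refine exists_congr fun k => and_congr_right fun _ => ?_
  rw [sm_shift h', h, h', show j + k + d = j + d + k by ring]

theorem nQ_shift {P P' Q U R R' S V : ℤ → Prop} {d : ℤ} (h : ∀ j, P j ↔ R (j + d))
    (h' : ∀ j, P' j ↔ R' (j + d)) (hQ : ∀ j, Q j ↔ S (j + d)) (hU : ∀ j, U j ↔ V (j + d)) {b : ℕ}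
    {j : ℤ} : nQ P P' Q U b j ↔ nQ R R' S V b (j + d) := by
  unfold nQ
  rw [chg_shift h h', hQ, hU]
  refine or_congr Iff.rfl (and_congr_right fun _ => and_congr_right fun _ =>
    forall_congr' fun k => forall_congr' fun _ => ?_)
  rw [sm_shift h', hU, show j + k + d = j + d + k by ring]

theorem QU_shift (x : ℤ → ℕ → Bool) (d : ℤ) (n : ℕ) : ∀ (b : Bool) (j : ℤ),
    QU (fun i => x (i + d)) n b j ↔ QU x n b (j + d) := by
  induction n with
  | zero => intro b j; exact Iff.rfl
  | succ n ih =>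
    have hQ : ∀ j, nQ (P (fun i => x (i + d)) n) (P (fun i => x (i + d)) (n + 1))
        (Q (fun i => x (i + d)) n) (U (fun i => x (i + d)) n) (gp (n + 1)) j ↔
        nQ (P x n) (P x (n + 1)) (Q x n) (U x n) (gp (n + 1)) (j + d) := fun j =>
      nQ_shift (P_shift x d n) (P_shift x d (n + 1)) (ih false) (ih true)
    intro b j
    cases b
    · exact Q_succ.trans ((hQ j).trans Q_succ.symm)
    · refine U_succ.trans (Iff.trans ?_ U_succ.symm)
      unfold nU
      rw [hQ, chg_shift (P_shift x d n) (P_shift x d (n + 1))]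
      exact or_congr (ih true j) Iff.rfl

/-- the points `0` and `1` are finally in the same class, up to the periodicity of the labels -/
theorem link (x : ℤ → ℕ → Bool) (hx : ∀ a b : ℤ, x a = x b → ∀ i, x (i + (b - a)) = x i) :
    ∃ N, ∀ n ≥ N, ∃ m : ℤ, sm (Q x n) 0 m ∧ x m = x 1 := by
  by_cases h : ∀ N, ∃ n ≥ N, Q x n 1
  · obtain ⟨n0, a, b, ha, hb, hab, hn⟩ := persistent h
    have hg := hx a b hab
    have hgs : ∀ n j, Q x n (j + (b - a)) ↔ Q x n j := by
      intro n j
      have h1 := QU_shift x (b - a) n false j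
      have h2 : (fun i => x (i + (b - a))) = x := funext hg
      rw [h2] at h1
      exact h1.symm
    refine ⟨n0, fun n hn' => ⟨1 - (b - a), ?_, ?_⟩⟩
    · obtain ⟨hQ, hP⟩ := hn n hn'
      rintro k (hk | hk) hq
      · omega
      · by_cases hka : a ≤ k
        · have h1 := (inv n).2.1 k 1 (by
            rintro m (hm | hm)
            · exact hP m (by omega) (by omega)
            · omega) hq hQ
          omega
        · have h1 := (inv n).2.1 (k + (b - a)) 1 (by
            rintro m (hm | hm)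
            · omega
            · exact hP m (by omega) (by omega)) ((hgs n k).2 hq) hQ
          omega
    · have := hg (1 - (b - a))
      rwa [sub_add_cancel, eq_comm] at this
  · push Not at h
    obtain ⟨N, hN⟩ := h
    refine ⟨N, fun n hn => ⟨1, ?_, rfl⟩⟩
    rintro k (hk | hk)
    · have : k = 1 := by omega
      rw [this]
      exact hN n hn
    · omega

end Pool.Agent.V7H75.HF
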