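import Pool.Agent.V7H75.HF.Zp
import Pool.Agent.V7H75.HF.Mark

set_option autoImplicit false

/-!
The markers and the cuts on the orbits of a computable homeomorphism of the Cantor space are
computable, uniformly in the oracle.
-/

namespace Pool.Agent.V7H75.HF

open Encodable Pool.Agent.Helper227

section general

variable {α : Type} [Primcodable α]

theorem comp_addZ {f g : α → ℤ} (hf : Computable f) (hg : Computable g) :
    Computable fun a => f a + g a :=
  Computable₂.comp (f := fun a b : ℤ => a + b) prim_addZ.to_comp hf hg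

theorem UD.leZ {f g : α → ℤ} (hf : Computable f) (hg : Computable g) :
    UD fun _ a => f a ≤ g a :=
  UD.of_comp (p := fun x : ℤ × ℤ => x.1 ≤ x.2) prim_leZ (hf.pair hg)

theorem UD.ltZ {f g : α → ℤ} (hf : Computable f) (hg : Computable g) :
    UD fun _ a => f a < g a :=
  UD.of_comp (p := fun x : ℤ × ℤ => x.1 < x.2) prim_ltZ (hf.pair hg)

theorem UD.sm {p : (ℕ → Bool) → α → ℤ → Prop} (hp : UD fun B (x : α × ℤ) => p B x.1 x.2)
    {i j : α → ℤ} (hi : Computable i) (hj : Computable j) :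
    UD fun B a => HF.sm (p B a) (i a) (j a) := by
  have hi' : Computable fun x : α × ℤ => i x.1 := hi.comp Computable.fst
  have hj' : Computable fun x : α × ℤ => j x.1 := hj.comp Computable.fst
  have hb : Computable fun a : α => (i a).natAbs + (j a).natAbs :=
    Computable₂.comp (f := fun a b : ℕ => a + b) Primrec.nat_add.to_comp
      (prim_absZ.to_comp.comp hi) (prim_absZ.to_comp.comp hj)
  have h1 : UD fun B a => ∀ k : ℤ, |k| ≤ (((i a).natAbs + (j a).natAbs : ℕ) : ℤ) →
      (((i a < k ∧ k ≤ j a) ∨ (j a < k ∧ k ≤ i a)) → ¬ p B a k) := by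
    refine UD.all_win (p := fun B a k =>
      (((i a < k ∧ k ≤ j a) ∨ (j a < k ∧ k ≤ i a)) → ¬ p B a k)) (UD.imp (UD.or (UD.and ?_ ?_)
        (UD.and ?_ ?_)) hp.not) hb
    · exact UD.ltZ hi' Computable.snd
    · exact UD.leZ Computable.snd hj'
    · exact UD.ltZ hj' Computable.snd
    · exact UD.leZ Computable.snd hi'
  refine h1.of_eq fun B a => ?_
  constructor
  · intro h k hk
    refine h k ?_ hk
    rw [abs_le]
    omega
  · intro h k _ hk
    exact h k hk

variable {P P' Q U : (ℕ → Bool) → α → ℤ → Prop} {b : α → ℕ} {j : α → ℤ}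

theorem UD.at {P : (ℕ → Bool) → α → ℤ → Prop} (hP : UD fun B (x : α × ℤ) => P B x.1 x.2)
    {j : α → ℤ} (hj : Computable j) : UD fun B a => P B a (j a) :=
  hP.comp (f := fun a => (a, j a)) (Computable.id.pair hj)

theorem UD.at' {P : (ℕ → Bool) → α → ℤ → Prop} (hP : UD fun B (x : α × ℤ) => P B x.1 x.2)
    {j : α → ℤ} (hj : Computable j) : UD fun B (x : α × ℤ) => P B x.1 (j x.1 + x.2) :=
  hP.comp (f := fun x : α × ℤ => (x.1, j x.1 + x.2))
    (Computable.fst.pair (comp_addZ (hj.comp Computable.fst) Computable.snd))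

theorem UD.smj (hP' : UD fun B (x : α × ℤ) => P' B x.1 x.2) (hj : Computable j) :
    UD fun B (x : α × ℤ) => HF.sm (P' B x.1) (j x.1 + x.2) (j x.1) :=
  UD.sm (α := α × ℤ) (p := fun B x k => P' B x.1 k)
    (hP'.comp (f := fun y : (α × ℤ) × ℤ => (y.1.1, y.2))
      ((Computable.fst.comp Computable.fst).pair Computable.snd))
    (comp_addZ (hj.comp Computable.fst) Computable.snd) (hj.comp Computable.fst)

theorem UD.chg (hP : UD fun B (x : α × ℤ) => P B x.1 x.2)
    (hP' : UD fun B (x : α × ℤ) => P' B x.1 x.2) (hb : Computable b) (hj : Computable j) :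
    UD fun B a => HF.chg (P B a) (P' B a) (b a) (j a) :=
  UD.ex_win (p := fun B a k => HF.sm (P' B a) (j a + k) (j a) ∧ P B a (j a + k) ∧ ¬ P' B a (j a + k))
    (UD.and (UD.smj hP' hj) (UD.and (UD.at' hP hj) (UD.at' hP' hj).not)) hb

theorem UD.nQ (hP : UD fun B (x : α × ℤ) => P B x.1 x.2)
    (hP' : UD fun B (x : α × ℤ) => P' B x.1 x.2) (hQ : UD fun B (x : α × ℤ) => Q B x.1 x.2)
    (hU : UD fun B (x : α × ℤ) => U B x.1 x.2) (hb : Computable b) (hj : Computable j) :
    UD fun B a => HF.nQ (P B a) (P' B a) (Q B a) (U B a) (b a) (j a) := by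
  have hc := UD.chg hP hP' hb hj
  refine UD.or (UD.and hc.not (UD.at hQ hj)) (UD.and hc (UD.and (UD.at hU hj).not ?_))
  refine UD.all_win (p := fun B a k => (k < 0 ∧ HF.sm (P' B a) (j a + k) (j a)) → U B a (j a + k))
    (UD.imp (UD.and ?_ (UD.smj hP' hj)) (UD.at' hU hj)) hb
  exact UD.ltZ Computable.snd (Computable.const 0)

theorem UD.nU (hP : UD fun B (x : α × ℤ) => P B x.1 x.2)
    (hP' : UD fun B (x : α × ℤ) => P' B x.1 x.2) (hQ : UD fun B (x : α × ℤ) => Q B x.1 x.2)
    (hU : UD fun B (x : α × ℤ) => U B x.1 x.2) (hb : Computable b) (hj : Computable j) :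
    UD fun B a => HF.nU (P B a) (P' B a) (Q B a) (U B a) (b a) (j a) :=
  UD.or (UD.at hU hj) (UD.and (UD.chg hP hP' hb hj) (UD.nQ hP hP' hQ hU hb hj))

end general

theorem gp_comp : Computable gp := by
  have h1 : Primrec fun n : ℕ => 2 * ((n + 1) * 2 ^ (n + 1)) :=
    Primrec.nat_mul.comp (Primrec.const 2) (Primrec.nat_mul.comp Primrec.succ
      (Pool.Agent.H548R2.Post.primrec_pow.comp (Primrec.const 2) Primrec.succ))
  have h2 : Primrec fun n : ℕ => (Nat.rec 0 (fun n r => r + 2 * ((n + 1) * 2 ^ (n + 1))) n : ℕ) :=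
    Primrec.nat_rec' (f := fun n : ℕ => n) (g := fun _ : ℕ => 0)
      (h := fun (_ : ℕ) (y : ℕ × ℕ) => y.2 + 2 * ((y.1 + 1) * 2 ^ (y.1 + 1))) Primrec.id
      (Primrec.const 0)
      (Primrec.nat_add.comp (Primrec.snd.comp Primrec.snd)
        (h1.comp (Primrec.fst.comp Primrec.snd)))
  refine (h2.of_eq fun n => ?_).to_comp
  induction n with
  | zero => rfl
  | succ n ih => simp only [gp, ← ih]

theorem val_prim : Primrec val := by
  unfold val
  refine Primrec.list_foldl (f := fun σ : List Bool => σ) (g := fun _ : List Bool => 0)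
    (h := fun (_ : List Bool) (y : ℕ × Bool) => 2 * y.1 + cond y.2 1 0) Primrec.id (Primrec.const 0) ?_
  exact Primrec.nat_add.comp (Primrec.nat_mul.comp (Primrec.const 2)
    (Primrec.fst.comp Primrec.snd)) (Primrec.cond (Primrec.snd.comp Primrec.snd) (Primrec.const 1)
      (Primrec.const 0))

/-- the points of the orbit -/
def orb (T : Equiv.Perm (ℕ → Bool)) (X : ℕ → Bool) : ℤ → ℕ → Bool := fun i => (T ^ i) X

theorem iterate_UD {T : (ℕ → Bool) → ℕ → Bool} (hT : UD fun B (n : ℕ) => T B n = true) :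
    UD fun B (x : ℕ × ℕ) => T^[x.1] B x.2 = true := by
  refine UD.iter (Y := fun B n => T^[n] B) (S := fun W (x : ℕ × ℕ) => T (odd W) x.2 = true)
    UD.query ?_ fun B n m => ?_
  · have h1 : UD fun W (x : Unit × ℕ) => odd W x.2 = true :=
      UD.query.comp (f := fun x : Unit × ℕ => 2 * x.2 + 1)
        (Primrec.succ.comp (Primrec.nat_mul.comp (Primrec.const 2) Primrec.snd)).to_comp
    have h2 := UD.sub (F := fun W (_ : Unit) => odd W) h1 hT
    exact h2.comp (f := fun a : ℕ × ℕ => ((), a.2)) ((Computable.const ()).pair Computable.snd)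
  · rw [Function.iterate_succ_apply', odd_join]

section orbit

variable {T : Equiv.Perm (ℕ → Bool)} (hT : UD fun B (n : ℕ) => T B n = true)
  (hT' : UD fun B (n : ℕ) => T.symm B n = true)

include hT hT'

theorem orb_UD : UD fun B (x : ℤ × ℕ) => orb T B x.1 x.2 = true := by
  have h1 := iterate_UD (T := fun B => T B) hT
  have h2 := iterate_UD (T := fun B => T.symm B) hT'
  have h3 : UD fun B (x : ℤ × ℕ) => (0 ≤ x.1 ∧ (fun B => T B)^[x.1.toNat] B x.2 = true) ∨
      (¬ 0 ≤ x.1 ∧ (fun B => T.symm B)^[(-x.1).toNat] B x.2 = true) := by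
    have h0 : UD fun (_ : ℕ → Bool) (x : ℤ × ℕ) => 0 ≤ x.1 := UD.leZ (Computable.const 0) Computable.fst
    refine UD.or (UD.and h0 ?_) (UD.and h0.not ?_)
    · exact h1.comp (f := fun x : ℤ × ℕ => (x.1.toNat, x.2))
        ((prim_toNat.to_comp.comp Computable.fst).pair Computable.snd)
    · exact h2.comp (f := fun x : ℤ × ℕ => ((-x.1).toNat, x.2))
        ((prim_negToNat.to_comp.comp Computable.fst).pair Computable.snd)
  refine h3.of_eq fun B x => ?_
  unfold orb
  by_cases h : 0 ≤ x.1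
  · have h4 : (T ^ x.1) B = (fun B => T B)^[x.1.toNat] B := by
      obtain ⟨n, hn⟩ := Int.eq_ofNat_of_zero_le h
      rw [hn, Int.toNat_natCast, zpow_natCast, Equiv.Perm.iterate_eq_pow]
    simp only [h, not_true, false_and, or_false, true_and, h4]
  · have h4 : (T ^ x.1) B = (fun B => T.symm B)^[(-x.1).toNat] B := by
      obtain ⟨n, hn⟩ := Int.eq_ofNat_of_zero_le (a := -x.1) (by omega)
      have h5 : x.1 = -(n : ℤ) := by omega
      rw [h5, neg_neg, Int.toNat_natCast, zpow_neg, zpow_natCast, Equiv.Perm.iterate_eq_pow,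
        ← inv_pow]
      rfl
    simp only [h, not_false_eq_true, false_and, false_or, true_and, h4]

theorem lab_UF : UF fun B (x : ℤ × ℕ) => lab (orb T B) x.2 x.1 := by
  have h1 : UF fun B (n : ℕ) => val (pre B n) :=
    UF.of_pre (f := fun y : List Bool × ℕ => val y.1) (val_prim.comp Primrec.fst) Computable.id
  exact UF.sub (F := fun B i => orb T B i) (orb_UD hT hT') h1

theorem lab_le_UD : UD fun B (x : (ℤ × ℤ) × ℕ) =>
    lab (orb T B) x.2 x.1.1 ≤ lab (orb T B) x.2 x.1.2 := by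
  have h1 : UF fun B (x : (ℤ × ℤ) × ℕ) => lab (orb T B) x.2 x.1.1 :=
    (lab_UF hT hT').comp (g := fun x : (ℤ × ℤ) × ℕ => (x.1.1, x.2))
      ((Computable.fst.comp Computable.fst).pair Computable.snd)
  have h2 : UF fun B (x : ((ℤ × ℤ) × ℕ) × ℕ) => lab (orb T B) x.1.2 x.1.1.2 :=
    (lab_UF hT hT').comp (g := fun x : ((ℤ × ℤ) × ℕ) × ℕ => (x.1.1.2, x.1.2))
      (((Computable.snd.comp (Computable.fst.comp Computable.fst))).pair
        (Computable.snd.comp Computable.fst))
  refine UF.pred (p := fun B (x : (ℤ × ℤ) × ℕ) (v : ℕ) => v ≤ lab (orb T B) x.2 x.1.2) h1 ?_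
  refine UF.pred (α := ((ℤ × ℤ) × ℕ) × ℕ) (p := fun _ x w => x.2 ≤ w) h2 ?_
  exact UD.of_prim (Primrec.nat_le.comp (Primrec.snd.comp Primrec.fst) Primrec.snd)

theorem P_UD : UD fun B (x : ℕ × ℤ) => P (orb T B) x.1 x.2 := by
  refine UD.iter' (Y := fun B n j => P (orb T B) n j) (S := fun W (x : ℕ × ℤ) =>
    nP (lab (orb T (evn W)) (x.1 + 1)) (x.1 + 1) (rd W) x.2) ?_ ?_ ?_
  · exact UD.of_prim (PP.const True)
  · refine UD.and (UD.rd.comp Computable.snd) ?_
    have h1 : UD fun W (x : ℕ × ℤ) => ∀ k : ℤ, |k| ≤ ((x.1 + 1 : ℕ) : ℤ) →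
        (rd W (x.2 + k) → lab (orb T (evn W)) (x.1 + 1) x.2 ≤
          lab (orb T (evn W)) (x.1 + 1) (x.2 + k)) := by
      refine UD.all_win (p := fun W (x : ℕ × ℤ) k => (rd W (x.2 + k) →
        lab (orb T (evn W)) (x.1 + 1) x.2 ≤ lab (orb T (evn W)) (x.1 + 1) (x.2 + k)))
        (UD.imp ?_ ?_) (Computable.succ.comp Computable.fst)
      · exact UD.rd.comp (comp_addZ (Computable.snd.comp Computable.fst) Computable.snd)
      · have h2 := UD.evn (lab_le_UD hT hT')
        exact h2.comp (f := fun y : (ℕ × ℤ) × ℤ => ((y.1.2, y.1.2 + y.2), y.1.1 + 1))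
          (((Computable.snd.comp Computable.fst).pair
            (comp_addZ (Computable.snd.comp Computable.fst) Computable.snd)).pair
            (Computable.succ.comp (Computable.fst.comp Computable.fst)))
    exact h1
  · intro B n j
    simp only [evn_join, rd_join]
    exact Iff.rfl

theorem QU_UD : UD fun B (x : ℕ × Bool × ℤ) => QU (orb T B) x.1 x.2.1 x.2.2 := by
  have hP := P_UD hT hT'
  refine UD.iter' (Y := fun B n (y : Bool × ℤ) => QU (orb T B) n y.1 y.2)
    (S := fun W (x : ℕ × Bool × ℤ) =>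
      (x.2.1 = true ∧ nU (P (orb T (evn W)) x.1) (P (orb T (evn W)) (x.1 + 1))
        (fun j => rd W (false, j)) (fun j => rd W (true, j)) (gp (x.1 + 1)) x.2.2) ∨
      (x.2.1 = false ∧ nQ (P (orb T (evn W)) x.1) (P (orb T (evn W)) (x.1 + 1))
        (fun j => rd W (false, j)) (fun j => rd W (true, j)) (gp (x.1 + 1)) x.2.2)) ?_ ?_ ?_
  · refine (UD.of_prim (α := Bool × ℤ) (p := fun x => x.1 = false)
      (Primrec.eq.comp Primrec.fst (Primrec.const false))).of_eq fun B x => Iff.rfl
  · have h1 : UD fun W (y : (ℕ × Bool × ℤ) × ℤ) => P (orb T (evn W)) y.1.1 y.2 :=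
      (UD.evn hP).comp (f := fun y : (ℕ × Bool × ℤ) × ℤ => (y.1.1, y.2))
        ((Computable.fst.comp Computable.fst).pair Computable.snd)
    have h2 : UD fun W (y : (ℕ × Bool × ℤ) × ℤ) => P (orb T (evn W)) (y.1.1 + 1) y.2 :=
      (UD.evn hP).comp (f := fun y : (ℕ × Bool × ℤ) × ℤ => (y.1.1 + 1, y.2))
        ((Computable.succ.comp (Computable.fst.comp Computable.fst)).pair Computable.snd)
    have h3 : UD fun W (y : (ℕ × Bool × ℤ) × ℤ) => rd W (false, y.2) :=
      UD.rd.comp (f := fun y : (ℕ × Bool × ℤ) × ℤ => (false, y.2))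
        ((Computable.const false).pair Computable.snd)
    have h4 : UD fun W (y : (ℕ × Bool × ℤ) × ℤ) => rd W (true, y.2) :=
      UD.rd.comp (f := fun y : (ℕ × Bool × ℤ) × ℤ => (true, y.2))
        ((Computable.const true).pair Computable.snd)
    have hb : Computable fun x : ℕ × Bool × ℤ => gp (x.1 + 1) :=
      gp_comp.comp (Computable.succ.comp Computable.fst)
    have hj : Computable fun x : ℕ × Bool × ℤ => x.2.2 := Computable.snd.comp Computable.snd
    refine UD.or (UD.and ?_ ?_) (UD.and ?_ ?_)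
    · exact UD.of_prim (Primrec.eq.comp (Primrec.fst.comp Primrec.snd) (Primrec.const true))
    · exact UD.nU (P := fun W (x : ℕ × Bool × ℤ) => P (orb T (evn W)) x.1)
        (P' := fun W (x : ℕ × Bool × ℤ) => P (orb T (evn W)) (x.1 + 1))
        (Q := fun W (x : ℕ × Bool × ℤ) j => rd W (false, j))
        (U := fun W (x : ℕ × Bool × ℤ) j => rd W (true, j)) h1 h2 h3 h4 hb hj
    · exact UD.of_prim (Primrec.eq.comp (Primrec.fst.comp Primrec.snd) (Primrec.const false))
    · exact UD.nQ (P := fun W (x : ℕ × Bool × ℤ) => P (orb T (evn W)) x.1)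
        (P' := fun W (x : ℕ × Bool × ℤ) => P (orb T (evn W)) (x.1 + 1))
        (Q := fun W (x : ℕ × Bool × ℤ) j => rd W (false, j))
        (U := fun W (x : ℕ × Bool × ℤ) j => rd W (true, j)) h1 h2 h3 h4 hb hj
  · rintro B n ⟨b, j⟩
    simp only [evn_join, rd_join]
    cases b
    · simp only [Bool.false_eq_true, false_and, false_or, true_and]
      exact Q_succ
    · simp only [Bool.true_eq_false, false_and, or_false, true_and]
      exact U_succ

theorem Q_UD : UD fun B (x : ℕ × ℤ) => Q (orb T B) x.1 x.2 :=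
  (QU_UD hT hT').comp (f := fun x : ℕ × ℤ => (x.1, (false, x.2)))
    (Computable.fst.pair ((Computable.const false).pair Computable.snd))

/-- not separated by a cut of level `n` -/
theorem smQ_UD : UD fun B (x : ℕ × ℤ × ℤ) => sm (Q (orb T B) x.1) x.2.1 x.2.2 := by
  refine UD.sm (α := ℕ × ℤ × ℤ) (p := fun B x k => Q (orb T B) x.1 k) ?_
    (Computable.fst.comp Computable.snd) (Computable.snd.comp Computable.snd)
  exact (Q_UD hT hT').comp (f := fun y : (ℕ × ℤ × ℤ) × ℤ => (y.1.1, y.2))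
    ((Computable.fst.comp Computable.fst).pair Computable.snd)

end orbit

end Pool.Agent.V7H75.HF
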