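import Pool.Agent.V7H75.HF.U

set_option autoImplicit false

/-!
Iteration of an operator which is computable uniformly in the oracle.
-/

namespace Pool.Agent.V7H75.HF

open Encodable Pool.Agent.Helper227
open Pool.Agent.H548R2.Post (t42_eq_pre ext)

/-- the prefix of the join of two oracles which is known from prefixes of the two -/
def il (σ τ : List Bool) : List Bool :=
  (List.range (2 * min σ.length τ.length)).map
    (fun i => if i % 2 = 0 then σ.getD (i / 2) false else τ.getD (i / 2) false)

theorem il_eq {σ τ : List Bool} {X Z : ℕ → Bool} (hX : ∀ i < min σ.length τ.length, σ.getD i false = X i)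
    (hZ : ∀ i < min σ.length τ.length, τ.getD i false = Z i) :
    il σ τ = pre (join X Z) (2 * min σ.length τ.length) := by
  unfold il pre join
  refine List.map_congr_left fun i hi => ?_
  rw [List.mem_range] at hi
  by_cases h : i % 2 = 0
  · rw [if_pos h, if_pos h, hX _ (by omega)]
  · rw [if_neg h, if_neg h, hZ _ (by omega)]

theorem getD_of_prefix {σ σ' : List Bool} (h : σ <+: σ') {i : ℕ} (hi : i < σ.length) :
    σ'.getD i false = σ.getD i false := by
  obtain ⟨ρ, rfl⟩ := h
  rw [List.getD_append _ _ _ _ hi]

theorem il_prefix {σ σ' : List Bool} (τ : List Bool) (h : σ <+: σ') : il σ τ <+: il σ' τ := by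
  have h1 : il σ τ = pre (join (ext σ') (ext τ)) (2 * min σ.length τ.length) :=
    il_eq (fun i hi => (getD_of_prefix h (by omega)).symm) (fun i _ => rfl)
  have h2 : il σ' τ = pre (join (ext σ') (ext τ)) (2 * min σ'.length τ.length) :=
    il_eq (fun i _ => rfl) (fun i _ => rfl)
  rw [h1, h2]
  apply pre_prefix
  have := h.length_le
  omega

theorem il_prim : Primrec₂ il := by
  have hl : Primrec fun x : List Bool × List Bool => 2 * min x.1.length x.2.length :=
    Primrec.nat_mul.comp (Primrec.const 2) (Primrec.nat_min.comp
      (Primrec.list_length.comp Primrec.fst) (Primrec.list_length.comp Primrec.snd))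
  have hd : Primrec fun y : (List Bool × List Bool) × ℕ => y.2 / 2 :=
    Primrec.nat_div.comp Primrec.snd (Primrec.const 2)
  refine Primrec.list_map (Primrec.list_range.comp hl) (Primrec.ite ?_ ?_ ?_)
  · exact Primrec.eq.comp (Primrec.nat_mod.comp Primrec.snd (Primrec.const 2)) (Primrec.const 0)
  · exact (Primrec.list_getD false).comp (Primrec.fst.comp Primrec.fst) hd
  · exact (Primrec.list_getD false).comp (Primrec.snd.comp Primrec.fst) hd

/-- iteration -/
theorem UD.iter {Y : (ℕ → Bool) → ℕ → ℕ → Bool} (h0 : UD fun B m => Y B 0 m = true)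
    {S : (ℕ → Bool) → ℕ × ℕ → Prop} (hS : UD S)
    (h : ∀ B n m, Y B (n + 1) m = true ↔ S (join B (Y B n)) (n, m)) :
    UD fun B (x : ℕ × ℕ) => Y B x.1 x.2 = true := by
  obtain ⟨E0, hE0, mE0, eE0⟩ := UD.graph (F := fun B m => Y B 0 m) h0
  have hg : U1 fun W (x : (ℕ × ℕ) × Bool) => S W x.1 ↔ x.2 = true := by
    have h1 : U1 fun W (x : (ℕ × ℕ) × Bool) => (S W x.1 ∧ x.2 = true) ∨ (¬ S W x.1 ∧ x.2 = false) := by
      refine U1.or (U1.and (hS.pos.comp Computable.fst) (U1.of_prim ?_))
        (U1.and (hS.neg.comp Computable.fst) (U1.of_prim ?_))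
      · exact Primrec.eq.comp Primrec.snd (Primrec.const true)
      · exact Primrec.eq.comp Primrec.snd (Primrec.const false)
    refine h1.of_eq fun B x => ?_
    rcases x with ⟨n, b⟩
    cases b <;> simp
  obtain ⟨E1, hE1, mE1, eE1⟩ := hg
  have key : U1 fun B (x : (ℕ × ℕ) × Bool) => Y B x.1.1 x.1.2 = x.2 := by
    refine ⟨fun y => ∃ L : List (List Bool), L.length = y.2.1.1 + 1 ∧
      ((∀ k < (L.getD 0 []).length, E0 (y.1, (k, (L.getD 0 []).getD k false))) ∧
      ((∀ i < y.2.1.1, ∀ k < (L.getD (i + 1) []).length,
        E1 (il y.1 (L.getD i []), ((i, k), (L.getD (i + 1) []).getD k false))) ∧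
      (y.2.1.2 < (L.getD y.2.1.1 []).length ∧ (L.getD y.2.1.1 []).getD y.2.1.2 false = y.2.2))),
      ?_, ?_, ?_⟩
    · refine S1.ex (p := fun (y : List Bool × ((ℕ × ℕ) × Bool)) (L : List (List Bool)) =>
        L.length = y.2.1.1 + 1 ∧
        ((∀ k < (L.getD 0 []).length, E0 (y.1, (k, (L.getD 0 []).getD k false))) ∧
        ((∀ i < y.2.1.1, ∀ k < (L.getD (i + 1) []).length,
          E1 (il y.1 (L.getD i []), ((i, k), (L.getD (i + 1) []).getD k false))) ∧
        (y.2.1.2 < (L.getD y.2.1.1 []).length ∧
          (L.getD y.2.1.1 []).getD y.2.1.2 false = y.2.2)))) ?_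
      have hn : Primrec fun c : (List Bool × ((ℕ × ℕ) × Bool)) × List (List Bool) => c.1.2.1.1 :=
        Primrec.fst.comp (Primrec.fst.comp (Primrec.snd.comp Primrec.fst))
      have hm : Primrec fun c : (List Bool × ((ℕ × ℕ) × Bool)) × List (List Bool) => c.1.2.1.2 :=
        Primrec.snd.comp (Primrec.fst.comp (Primrec.snd.comp Primrec.fst))
      have hb : Primrec fun c : (List Bool × ((ℕ × ℕ) × Bool)) × List (List Bool) => c.1.2.2 :=
        Primrec.snd.comp (Primrec.snd.comp Primrec.fst)
      refine S1.and (S1.of_prim ?_) (S1.and ?_ (S1.and ?_ (S1.of_prim (PrimrecPred.and ?_ ?_))))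
      · exact Primrec.eq.comp (Primrec.list_length.comp Primrec.snd) (Primrec.succ.comp hn)
      · refine S1.all_lt (α := (List Bool × ((ℕ × ℕ) × Bool)) × List (List Bool))
          (p := fun c k => E0 (c.1.1, (k, (c.2.getD 0 []).getD k false)))
          (f := fun c => (c.2.getD 0 []).length) ?_ ?_
        · have h1 : Primrec fun d : ((List Bool × ((ℕ × ℕ) × Bool)) × List (List Bool)) × ℕ =>
              d.1.2.getD 0 [] :=
            (Primrec.list_getD []).comp (Primrec.snd.comp Primrec.fst) (Primrec.const 0)
          exact hE0.comp (f := fun d : ((List Bool × ((ℕ × ℕ) × Bool)) × List (List Bool)) × ℕ =>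
              ((d.1.1.1, (d.2, (d.1.2.getD 0 []).getD d.2 false)) : List Bool × (ℕ × Bool)))
            ((Primrec.fst.comp (Primrec.fst.comp Primrec.fst)).pair
              (Primrec.snd.pair ((Primrec.list_getD false).comp h1 Primrec.snd)))
        · exact Primrec.list_length.comp
            ((Primrec.list_getD []).comp Primrec.snd (Primrec.const 0))
      · refine S1.all_lt (α := (List Bool × ((ℕ × ℕ) × Bool)) × List (List Bool))
          (p := fun c i => ∀ k < (c.2.getD (i + 1) []).length,
            E1 (il c.1.1 (c.2.getD i []), ((i, k), (c.2.getD (i + 1) []).getD k false)))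
          (f := fun c => c.1.2.1.1) ?_ hn
        refine S1.all_lt (α := ((List Bool × ((ℕ × ℕ) × Bool)) × List (List Bool)) × ℕ)
          (p := fun d k =>
            E1 (il d.1.1.1 (d.1.2.getD d.2 []), ((d.2, k), (d.1.2.getD (d.2 + 1) []).getD k false)))
          (f := fun d => (d.1.2.getD (d.2 + 1) []).length) ?_ ?_
        · have hL : Primrec fun e : (((List Bool × ((ℕ × ℕ) × Bool)) × List (List Bool)) × ℕ) × ℕ =>
              e.1.1.2 := Primrec.snd.comp (Primrec.fst.comp Primrec.fst)
          have hi : Primrec fun e : (((List Bool × ((ℕ × ℕ) × Bool)) × List (List Bool)) × ℕ) × ℕ =>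
              e.1.2 := Primrec.snd.comp Primrec.fst
          have hs : Primrec fun e : (((List Bool × ((ℕ × ℕ) × Bool)) × List (List Bool)) × ℕ) × ℕ =>
              e.1.1.1.1 := Primrec.fst.comp (Primrec.fst.comp (Primrec.fst.comp Primrec.fst))
          exact hE1.comp
            (f := fun e : (((List Bool × ((ℕ × ℕ) × Bool)) × List (List Bool)) × ℕ) × ℕ =>
              ((il e.1.1.1.1 (e.1.1.2.getD e.1.2 []),
                ((e.1.2, e.2), (e.1.1.2.getD (e.1.2 + 1) []).getD e.2 false)) :
                List Bool × ((ℕ × ℕ) × Bool)))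
            ((il_prim.comp hs ((Primrec.list_getD []).comp hL hi)).pair
              ((hi.pair Primrec.snd).pair ((Primrec.list_getD false).comp
                ((Primrec.list_getD []).comp hL (Primrec.succ.comp hi)) Primrec.snd)))
        · exact Primrec.list_length.comp ((Primrec.list_getD []).comp
            (Primrec.snd.comp Primrec.fst) (Primrec.succ.comp Primrec.snd))
      · exact Primrec.nat_lt.comp hm (Primrec.list_length.comp
          ((Primrec.list_getD []).comp Primrec.snd hn))
      · exact Primrec.eq.comp ((Primrec.list_getD false).comp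
          ((Primrec.list_getD []).comp Primrec.snd hn) hm) hb
    · rintro σ τ a hστ ⟨L, h1, h2, h3, h4⟩
      exact ⟨L, h1, fun k hk => mE0 _ _ _ hστ (h2 k hk),
        fun i hi k hk => mE1 _ _ _ (il_prefix _ hστ) (h3 i hi k hk), h4⟩
    · rintro B ⟨⟨n, m⟩, b⟩
      simp only
      constructor
      · intro hb
        have hex : ∀ (n t : ℕ), ∃ (s : ℕ) (L : List (List Bool)), L.length = n + 1 ∧
            ((∀ k < (L.getD 0 []).length, E0 (pre B s, (k, (L.getD 0 []).getD k false))) ∧
            ((∀ i < n, ∀ k < (L.getD (i + 1) []).length,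
              E1 (il (pre B s) (L.getD i []), ((i, k), (L.getD (i + 1) []).getD k false))) ∧
            L.getD n [] = pre (Y B n) t)) := by
          intro n
          induction n with
          | zero =>
            intro t
            have h1 : ∀ k, ∃ s, E0 (pre B s, (k, Y B 0 k)) := fun k => (eE0 B (k, Y B 0 k)).1 rfl
            choose f hf using h1
            refine ⟨(Finset.range t).sup f, [pre (Y B 0) t], rfl, ?_, by omega, rfl⟩
            intro k hk
            simp only [List.getD_cons_zero, length_pre] at hk ⊢
            rw [pre_getD _ _ _ _ hk]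
            exact mE0 _ _ _ (pre_prefix B (Finset.le_sup (f := f) (Finset.mem_range.2 hk))) (hf k)
          | succ n ih =>
            intro t
            have h1 : ∀ k, ∃ s, E1 (pre (join B (Y B n)) s, ((n, k), Y B (n + 1) k)) :=
              fun k => (eE1 _ ((n, k), Y B (n + 1) k)).1 (h B n k).symm
            choose f hf using h1
            obtain ⟨s, L, h2, h3, h4, h5⟩ := ih ((Finset.range t).sup f)
            refine ⟨max s ((Finset.range t).sup f), L ++ [pre (Y B (n + 1)) t], by simp [h2], ?_, ?_, ?_⟩
            · intro k hk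
              rw [List.getD_append _ _ _ _ (by omega)] at hk ⊢
              exact mE0 _ _ _ (pre_prefix B (le_max_left _ _)) (h3 k hk)
            · intro i hi k hk
              rcases Nat.lt_succ_iff_lt_or_eq.1 hi with hi' | rfl
              · rw [List.getD_append _ _ _ _ (by omega)] at hk
                rw [List.getD_append _ _ _ _ (by omega), List.getD_append _ _ _ _ (by omega)]
                exact mE1 _ _ _ (il_prefix _ (pre_prefix B (le_max_left _ _))) (h4 i hi' k hk)
              · have h6 : (L ++ [pre (Y B (i + 1)) t]).getD (i + 1) [] = pre (Y B (i + 1)) t := by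
                  rw [List.getD_append_right _ _ _ _ (by omega), h2]
                  simp
                rw [h6, length_pre] at hk
                rw [h6, List.getD_append _ _ _ _ (by omega), h5, pre_getD _ _ _ _ hk]
                rw [il_eq (X := B) (Z := Y B i)
                  (fun j hj => pre_getD _ _ _ _ (by simp only [length_pre] at hj; omega))
                  (fun j hj => pre_getD _ _ _ _ (by simp only [length_pre] at hj; omega))]
                refine mE1 _ _ _ (pre_prefix _ ?_) (hf k)
                have := Finset.le_sup (f := f) (Finset.mem_range.2 hk)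
                simp only [length_pre]
                omega
            · rw [List.getD_append_right _ _ _ _ (by omega), h2]
              simp
        obtain ⟨s, L, h1, h2, h3, h4⟩ := hex n (m + 1)
        refine ⟨s, L, h1, h2, h3, ?_, ?_⟩
        · rw [h4, length_pre]
          exact Nat.lt_succ_self m
        · rw [h4, pre_getD _ _ _ _ (Nat.lt_succ_self m)]
          exact hb
      · rintro ⟨s, L, h1, h2, h3, h4, h5⟩
        have hp : ∀ i ≤ n, ∀ k < (L.getD i []).length, Y B i k = (L.getD i []).getD k false := by
          intro i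
          induction i with
          | zero =>
            intro _ k hk
            exact (eE0 B (k, _)).2 ⟨s, h2 k hk⟩
          | succ i ih =>
            intro hi k hk
            have h6 := h3 i (by omega) k hk
            rw [il_eq (X := B) (Z := Y B i)
              (fun j hj => pre_getD _ _ _ _ (by simp only [length_pre] at hj; omega))
              (fun j hj => (ih (by omega) j (by omega)).symm)] at h6
            have h7 := (eE1 _ ((i, k), _)).2 ⟨_, h6⟩
            simp only at h7
            rw [← h B i k] at h7
            cases hc : (L.getD (i + 1) []).getD k false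
            · rw [hc] at h7
              simpa using h7
            · rw [hc] at h7
              simpa using h7
        rw [hp n le_rfl m h4]
        exact h5
  constructor
  · exact key.comp (f := fun x : ℕ × ℕ => (x, true)) (Computable.id.pair (Computable.const true))
  · exact (key.comp (f := fun x : ℕ × ℕ => (x, false))
      (Computable.id.pair (Computable.const false))).of_eq fun B n => by simp

/-! ### iteration for predicates on a type with a coding -/

open Classical in
/-- the oracle which codes a predicate -/
noncomputable def cd {α : Type} [Primcodable α] (p : α → Prop) : ℕ → Bool :=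
  fun m => decide (∃ a : α, decode m = some a ∧ p a)

theorem cd_encode {α : Type} [Primcodable α] (p : α → Prop) (a : α) :
    cd p (encode a) = true ↔ p a := by
  simp [cd, encodek]

def evn (W : ℕ → Bool) : ℕ → Bool := fun m => W (2 * m)

def odd (W : ℕ → Bool) : ℕ → Bool := fun m => W (2 * m + 1)

theorem evn_join (X Z : ℕ → Bool) : evn (join X Z) = X := by
  funext m
  unfold evn join
  have h1 : 2 * m % 2 = 0 := by omega
  have h2 : 2 * m / 2 = m := by omega
  rw [if_pos h1, h2]

theorem odd_join (X Z : ℕ → Bool) : odd (join X Z) = Z := by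
  funext m
  unfold odd join
  have h1 : ¬ (2 * m + 1) % 2 = 0 := by omega
  have h2 : (2 * m + 1) / 2 = m := by omega
  rw [if_neg h1, h2]

/-- the predicate coded by the second half of the oracle -/
def rd {α : Type} [Primcodable α] (W : ℕ → Bool) (a : α) : Prop := odd W (encode a) = true

theorem rd_join {α : Type} [Primcodable α] (X : ℕ → Bool) (p : α → Prop) :
    rd (join X (cd p)) = p := by
  funext a
  unfold rd
  rw [odd_join]
  exact propext (cd_encode p a)

theorem UD.rd {α : Type} [Primcodable α] : UD fun W (a : α) => rd W a :=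
  UD.query.comp (f := fun a : α => 2 * encode a + 1)
    (Primrec.succ.comp (Primrec.nat_mul.comp (Primrec.const 2) Primrec.encode)).to_comp

theorem UD.evn {α : Type} [Primcodable α] {p : (ℕ → Bool) → α → Prop} (hp : UD p) :
    UD fun W a => p (evn W) a := by
  have h1 : UD fun W (x : Unit × ℕ) => HF.evn W x.2 = true :=
    UD.query.comp (f := fun x : Unit × ℕ => 2 * x.2)
      (Primrec.nat_mul.comp (Primrec.const 2) Primrec.snd).to_comp
  have h2 := UD.sub (F := fun W (_ : Unit) => HF.evn W) h1 hp
  exact h2.comp (f := fun a : α => ((), a)) ((Computable.const ()).pair Computable.id)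

/-- iteration for a predicate -/
theorem UD.iter' {α : Type} [Primcodable α] {Y : (ℕ → Bool) → ℕ → α → Prop}
    (h0 : UD fun B a => Y B 0 a) {S : (ℕ → Bool) → ℕ × α → Prop} (hS : UD S)
    (h : ∀ B n a, Y B (n + 1) a ↔ S (join B (cd (Y B n))) (n, a)) :
    UD fun B (x : ℕ × α) => Y B x.1 x.2 := by
  classical
  have hdec : Primrec fun m : ℕ => (decode m : Option α).toList :=
    Primrec.optionToList.comp Primrec.decode
  have hcd : ∀ p : α → Prop, ∀ m, cd p m = true ↔ ∃ a ∈ (decode m : Option α).toList, p a := by
    intro p m
    simp [cd]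
  have h1 : UD fun B (x : ℕ × ℕ) => cd (Y B x.1) x.2 = true := by
    refine UD.iter (Y := fun B n => cd (Y B n))
      (S := fun W (x : ℕ × ℕ) => ∃ a ∈ (decode x.2 : Option α).toList, S W (x.1, a)) ?_ ?_ ?_
    · refine (UD.ex_mem (p := fun B (_ : ℕ) a => Y B 0 a) (f := fun m => (decode m : Option α).toList)
        (h0.comp Computable.snd) hdec.to_comp).of_eq fun B m => (hcd _ m).symm
    · exact UD.ex_mem (α := ℕ × ℕ) (p := fun W (x : ℕ × ℕ) a => S W (x.1, a))
        (f := fun x : ℕ × ℕ => (decode x.2 : Option α).toList)
        (hS.comp (f := fun y : (ℕ × ℕ) × α => (y.1.1, y.2))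
          ((Computable.fst.comp Computable.fst).pair Computable.snd))
        (hdec.to_comp.comp Computable.snd)
    · intro B n m
      rw [hcd]
      exact exists_congr fun a => and_congr_right fun _ => h B n a
  refine (h1.comp (f := fun x : ℕ × α => (x.1, encode x.2))
    (Computable.fst.pair (Computable.encode.comp Computable.snd))).of_eq fun B x => ?_
  exact cd_encode _ _

end Pool.Agent.V7H75.HF
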