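import Pool.Agent.V7H75.HF.Main

set_option autoImplicit false

/-!
Solutions to Post's problem which are invariant for one given pair of truth-table functionals.
-/

namespace Pool.Agent.V7H75.HF

open Encodable Pool.Agent.Helper227
open Nat.Partrec (Code)
open Pool.Agent.H548R2.Post (chr)
open Pool.Agent.H869R3.RT (PostIndex)

/-- the points obtained from `X` by iteration of `T` and of `S` -/
def bi (T S : (ℕ → Bool) → ℕ → Bool) (X : ℕ → Bool) (i : ℤ) : ℕ → Bool :=
  if 0 ≤ i then T^[i.toNat] X else S^[(-i).toNat] X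

theorem bi_UD {T S : (ℕ → Bool) → ℕ → Bool} (hT : UD fun B (n : ℕ) => T B n = true)
    (hS : UD fun B (n : ℕ) => S B n = true) :
    UD fun B (x : ℤ × ℕ) => bi T S B x.1 x.2 = true := by
  have h3 : UD fun B (x : ℤ × ℕ) => (0 ≤ x.1 ∧ T^[x.1.toNat] B x.2 = true) ∨
      (¬ 0 ≤ x.1 ∧ S^[(-x.1).toNat] B x.2 = true) := by
    have h0 : UD fun (_ : ℕ → Bool) (x : ℤ × ℕ) => 0 ≤ x.1 :=
      UD.leZ (Computable.const 0) Computable.fst
    refine UD.or (UD.and h0 ?_) (UD.and h0.not ?_)
    · exact (iterate_UD hT).comp (f := fun x : ℤ × ℕ => (x.1.toNat, x.2))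
        ((prim_toNat.to_comp.comp Computable.fst).pair Computable.snd)
    · exact (iterate_UD hS).comp (f := fun x : ℤ × ℕ => ((-x.1).toNat, x.2))
        ((prim_negToNat.to_comp.comp Computable.fst).pair Computable.snd)
  refine h3.of_eq fun B x => ?_
  unfold bi
  by_cases h : 0 ≤ x.1
  · simp [h]
  · simp [h]

theorem bi_zero (T S : (ℕ → Bool) → ℕ → Bool) (X : ℕ → Bool) : bi T S X 0 = X := by
  simp [bi]

theorem bi_shift {T S : (ℕ → Bool) → ℕ → Bool} {X Y : ℕ → Bool} (h1 : T X = Y) (h2 : S Y = X)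
    (i : ℤ) : bi T S Y i = bi T S X (i + 1) := by
  unfold bi
  by_cases h : 0 ≤ i
  · have h3 : 0 ≤ i + 1 := by omega
    have h4 : (i + 1).toNat = i.toNat + 1 := by omega
    rw [if_pos h, if_pos h3, h4, Function.iterate_succ_apply, h1]
  · rw [if_neg h]
    have h4 : (-i).toNat = (-i).toNat - 1 + 1 := by omega
    rw [h4, Function.iterate_succ_apply, h2]
    by_cases h5 : 0 ≤ i + 1
    · have h6 : (i + 1).toNat = 0 := by omega
      have h7 : (-i).toNat - 1 = 0 := by omega
      rw [if_pos h5, h6, h7]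
      rfl
    · have h6 : (-(i + 1)).toNat = (-i).toNat - 1 := by omega
      rw [if_neg h5, h6]

/-- the pair with the code `n` -/
def dp (n : ℕ) : ℤ × ℕ := Denumerable.ofNat (ℤ × ℕ) n

theorem dp_encode (x : ℤ × ℕ) : dp (encode x) = x := Denumerable.ofNat_encode x

theorem dp_comp : Computable dp := (Primrec.ofNat (ℤ × ℕ)).to_comp

/-- the sequence of these points, as an oracle -/
def emb (T S : (ℕ → Bool) → ℕ → Bool) (X : ℕ → Bool) : ℕ → Bool :=
  fun n => bi T S X (dp n).1 (dp n).2

/-- the shift of such sequences -/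
def shf (d : ℤ) (n : ℕ) : ℕ := encode (((dp n).1 + d, (dp n).2) : ℤ × ℕ)

theorem shf_shf (d d' : ℤ) (n : ℕ) : shf d (shf d' n) = shf (d' + d) n := by
  unfold shf
  rw [dp_encode, add_assoc]

theorem shf_zero (n : ℕ) : shf 0 n = n := by
  unfold shf
  rw [add_zero]
  exact Denumerable.encode_ofNat (α := ℤ × ℕ) n

theorem shf_comp (d : ℤ) : Computable (shf d) :=
  Computable.encode.comp ((comp_addZ (f := fun n : ℕ => (dp n).1) (g := fun _ : ℕ => d)
    (Computable.fst.comp dp_comp) (Computable.const d)).pair (Computable.snd.comp dp_comp))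

theorem emb_shift {T S : (ℕ → Bool) → ℕ → Bool} {X Y : ℕ → Bool} (h1 : T X = Y) (h2 : S Y = X) :
    emb T S X ∘ shf 1 = emb T S Y := by
  funext n
  show bi T S X (dp (shf 1 n)).1 (dp (shf 1 n)).2 = bi T S Y (dp n).1 (dp n).2
  rw [bi_shift h1 h2, shf, dp_encode]

theorem WE_U1 (e : ℕ) : U1 fun B (n : ℕ) => n ∈ WE B e := by
  have h1 : U1 fun B (n : ℕ) => ∃ σ : List Bool, (∀ i < σ.length, B i = σ.getD i false) ∧
      ((Denumerable.ofNat Code e).eval (encode (σ, n))).Dom := by
    refine U1.ex (p := fun B (n : ℕ) (σ : List Bool) =>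
      (∀ i < σ.length, B i = σ.getD i false) ∧
      ((Denumerable.ofNat Code e).eval (encode (σ, n))).Dom) (U1.and ?_ (U1.of_s1 ?_))
    · refine U1.all_lt (α := ℕ × List Bool)
        (p := fun B x i => B i = x.2.getD i false)
        (f := fun x => x.2.length) ?_ (Primrec.list_length.comp Primrec.snd).to_comp
      exact U1.query.comp (f := fun z : (ℕ × List Bool) × ℕ =>
        ((z.2, z.1.2.getD z.2 false) : ℕ × Bool))
        (Primrec.snd.pair
          ((Primrec.list_getD false).comp (Primrec.snd.comp Primrec.fst) Primrec.snd)).to_comp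
    · exact S1.comp (f := fun x : ℕ × List Bool => (Denumerable.ofNat Code e, encode (x.2, x.1)))
        s1_eval ((Primrec.const _).pair (Primrec.encode.comp (Primrec.snd.pair Primrec.fst)))
  refine h1.of_eq fun B n => ?_
  constructor
  · rintro ⟨σ, h3, h4⟩
    refine ⟨σ.length, ?_⟩
    have : (List.range σ.length).map B = σ := by
      refine List.ext_getElem (by simp) fun i h5 h6 => ?_
      simp only [List.getElem_map, List.getElem_range]
      rw [h3 i h6]
      simp [h6]
    rwa [this]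
  · rintro ⟨s, hs⟩
    exact ⟨pre B s, fun i hi => (pre_getD B _ _ _ (by simpa using hi)).symm, hs⟩

/-- for one pair of truth-table functionals -/
theorem main_pair {T S : (ℕ → Bool) → ℕ → Bool} (hT : TT T) (hS : TT S) :
    ∃ e : ℕ, PostIndex e ∧ ∀ X Y : ℕ → Bool, T X = Y → S Y = X →
      TLe (chr (WE X e)) (chr (WE Y e)) ∧ TLe (chr (WE Y e)) (chr (WE X e)) := by
  obtain ⟨e, he, h⟩ := main_TT (T := fun Z => Z ∘ shf 1) (S := fun Z => Z ∘ shf (-1))
    (TT_comp (shf_comp 1)) (TT_comp (shf_comp (-1)))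
    (fun Z => by
      funext n
      show Z (shf 1 (shf (-1) n)) = Z n
      rw [shf_shf]
      norm_num
      rw [shf_zero])
    (fun Z => by
      funext n
      show Z (shf (-1) (shf 1 n)) = Z n
      rw [shf_shf]
      norm_num
      rw [shf_zero])
  have hE : UD fun B (n : ℕ) => emb T S B n = true :=
    (bi_UD hT.ud hS.ud).comp (f := dp) dp_comp
  have hU : U1 fun B (n : ℕ) => n ∈ WE (emb T S B) e := by
    have h1 : UD fun B (x : Unit × ℕ) => emb T S B x.2 = true := hE.comp Computable.snd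
    have h2 := U1.sub (F := fun B (_ : Unit) => emb T S B)
      (UD.graph (F := fun B (x : Unit × ℕ) => emb T S B x.2) h1) (WE_U1 e)
    exact h2.comp (f := fun n : ℕ => ((), n)) ((Computable.const ()).pair Computable.id)
  obtain ⟨e', he'⟩ := U1.index hU
  have hW : ∀ X, WE X e' = WE (emb T S X) e := fun X => he' X
  have l1 : ∀ X, TLe (emb T S X) X := by
    intro X
    rw [tLe_iff_SI]
    exact (UD.graph (F := fun B (n : ℕ) => emb T S B n) hE).si X
  have l2 : ∀ X, TLe X (emb T S X) := by
    intro X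
    refine tLe_of_computable (f := fun n : ℕ => encode ((0, n) : ℤ × ℕ))
      (Computable.encode.comp ((Computable.const 0).pair Computable.id)) fun n => ?_
    show X n = bi T S X (dp (encode ((0, n) : ℤ × ℕ))).1 (dp (encode ((0, n) : ℤ × ℕ))).2
    rw [dp_encode, bi_zero]
  refine ⟨e', fun X => ?_, fun X Y hX hY => ?_⟩
  · rw [hW X]
    obtain ⟨a1, a2, a3, a4, a5⟩ := he (emb T S X)
    have j1 := TLe.jump (l1 X)
    have j2 := TLe.jump (l2 X)
    exact ⟨TuringReducible.trans (l2 X) a1, fun h => a2 (TuringReducible.trans h (l2 X)),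
      TuringReducible.trans a3 j1, fun h => a4 (TuringReducible.trans j1 h),
      TuringReducible.trans a5 j1⟩
  · rw [hW X, hW Y, ← emb_shift hX hY]
    exact h (emb T S X)

end Pool.Agent.V7H75.HF
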