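import Pool.Agent.H548R2.Post.Main

set_option autoImplicit false

/-!
Predicates which are semidecidable, or decidable, relative to an oracle, uniformly in the oracle.
-/

namespace Pool.Agent.V7H75.HF

open Encodable Pool.Agent.Helper227
open Pool.Agent.H548R2.Post (t42_eq_pre)

/-- `p` is Sigma-one relative to the oracle, uniformly in the oracle. -/
def U1 {α : Type} [Primcodable α] (p : (ℕ → Bool) → α → Prop) : Prop :=
  ∃ E : List Bool × α → Prop, S1 E ∧ (∀ σ τ a, σ <+: τ → E (σ, a) → E (τ, a)) ∧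
    ∀ B a, p B a ↔ ∃ s, E (pre B s, a)

namespace U1

variable {α β γ : Type} [Primcodable α] [Primcodable β] [Primcodable γ]

theorem of_eq {p q : (ℕ → Bool) → α → Prop} (hp : U1 p) (h : ∀ B a, p B a ↔ q B a) : U1 q :=
  (funext fun B => funext fun a => propext (h B a) : p = q) ▸ hp

theorem of_s1 {p : α → Prop} (hp : S1 p) : U1 fun _ => p :=
  ⟨fun x => p x.2, hp.comp Primrec.snd, fun _ _ _ _ h => h, fun _ _ => by simp⟩

theorem of_prim {p : α → Prop} (hp : PrimrecPred p) : U1 fun _ => p := of_s1 (S1.of_prim hp)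

theorem si {p : (ℕ → Bool) → α → Prop} (hp : U1 p) (B : ℕ → Bool) : SI B (p B) := by
  obtain ⟨E, hE, mE, eE⟩ := hp
  exact ⟨E, hE, mE, eE B⟩

theorem comp {p : (ℕ → Bool) → β → Prop} {f : α → β} (hp : U1 p) (hf : Computable f) :
    U1 fun B a => p B (f a) := by
  obtain ⟨E, hE, mE, eE⟩ := hp
  exact ⟨fun x => E (x.1, f x.2), hE.comp_computable (Computable.fst.pair (hf.comp Computable.snd)),
    fun σ τ a h => mE _ _ _ h, fun B a => eE _ _⟩

theorem and {p q : (ℕ → Bool) → α → Prop} (hp : U1 p) (hq : U1 q) :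
    U1 fun B a => p B a ∧ q B a := by
  obtain ⟨E, hE, mE, eE⟩ := hp
  obtain ⟨F, hF, mF, eF⟩ := hq
  refine ⟨fun x => E x ∧ F x, hE.and hF, fun σ τ a h h2 => ⟨mE _ _ _ h h2.1, mF _ _ _ h h2.2⟩,
    fun B a => ?_⟩
  refine (and_congr (eE B a) (eF B a)).trans ?_
  constructor
  · rintro ⟨⟨s, hs⟩, ⟨t, ht⟩⟩
    exact ⟨max s t, mE _ _ _ (pre_prefix B (le_max_left _ _)) hs,
      mF _ _ _ (pre_prefix B (le_max_right _ _)) ht⟩
  · rintro ⟨s, h1, h2⟩
    exact ⟨⟨s, h1⟩, ⟨s, h2⟩⟩

theorem or {p q : (ℕ → Bool) → α → Prop} (hp : U1 p) (hq : U1 q) :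
    U1 fun B a => p B a ∨ q B a := by
  obtain ⟨E, hE, mE, eE⟩ := hp
  obtain ⟨F, hF, mF, eF⟩ := hq
  refine ⟨fun x => E x ∨ F x, hE.or hF, fun σ τ a h h2 => h2.imp (mE _ _ _ h) (mF _ _ _ h),
    fun B a => ?_⟩
  exact (or_congr (eE B a) (eF B a)).trans exists_or.symm

theorem ex {p : (ℕ → Bool) → α → β → Prop} (hp : U1 fun B (x : α × β) => p B x.1 x.2) :
    U1 fun B a => ∃ b, p B a b := by
  obtain ⟨E, hE, mE, eE⟩ := hp
  refine ⟨fun x => ∃ b, E (x.1, (x.2, b)), S1.ex (hE.comp ?_), ?_, fun B a => ?_⟩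
  · exact (Primrec.fst.comp Primrec.fst).pair ((Primrec.snd.comp Primrec.fst).pair Primrec.snd)
  · rintro σ τ a h ⟨b, hb⟩
    exact ⟨b, mE _ _ _ h hb⟩
  · constructor
    · rintro ⟨b, hb⟩
      obtain ⟨s, hs⟩ := (eE B (a, b)).1 hb
      exact ⟨s, b, hs⟩
    · rintro ⟨s, b, hs⟩
      exact ⟨b, (eE B (a, b)).2 ⟨s, hs⟩⟩

theorem all_mem {p : (ℕ → Bool) → α → β → Prop} {f : α → List β}
    (hp : U1 fun B (x : α × β) => p B x.1 x.2) (hf : Computable f) :
    U1 fun B a => ∀ b ∈ f a, p B a b := by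
  have key : U1 fun B (x : α × List β) => ∀ b ∈ x.2, p B x.1 b := by
    obtain ⟨E, hE, mE, eE⟩ := hp
    refine ⟨fun x => ∀ b ∈ x.2.2, E (x.1, (x.2.1, b)), S1.all_mem (α := List Bool × α × List β)
      (p := fun x b => E (x.1, (x.2.1, b))) (f := fun x => x.2.2) (hE.comp ?_)
      (Primrec.snd.comp Primrec.snd), ?_, fun B a => ?_⟩
    · exact (Primrec.fst.comp Primrec.fst).pair
        ((Primrec.fst.comp (Primrec.snd.comp Primrec.fst)).pair Primrec.snd)
    · rintro σ τ a h h2 b hb
      exact mE _ _ _ h (h2 b hb)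
    · have : ∀ L : List β, (∀ b ∈ L, p B a.1 b) ↔ ∃ s, ∀ b ∈ L, E (pre B s, (a.1, b)) := by
        intro L
        induction L with
        | nil => simp
        | cons c L ih =>
          simp only [List.mem_cons, forall_eq_or_imp, ih]
          have := eE B (a.1, c)
          simp only at this
          rw [this]
          constructor
          · rintro ⟨⟨m, hm'⟩, ⟨n, hn⟩⟩
            exact ⟨max m n, mE _ _ _ (pre_prefix B (le_max_left _ _)) hm',
              fun b hb => mE _ _ _ (pre_prefix B (le_max_right _ _)) (hn b hb)⟩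
          · rintro ⟨n, h1, h2⟩
            exact ⟨⟨n, h1⟩, ⟨n, h2⟩⟩
      exact this _
  exact key.comp (f := fun a : α => (a, f a)) (Computable.id.pair hf)

theorem all_lt {p : (ℕ → Bool) → α → ℕ → Prop} {f : α → ℕ}
    (hp : U1 fun B (x : α × ℕ) => p B x.1 x.2) (hf : Computable f) :
    U1 fun B a => ∀ b < f a, p B a b :=
  (all_mem hp (Primrec.list_range.to_comp.comp hf)).of_eq (by simp)

theorem query : U1 fun B (x : ℕ × Bool) => B x.1 = x.2 := by
  refine ⟨fun x => x.1[x.2.1]? = some x.2.2, S1.of_prim ?_, ?_, ?_⟩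
  · exact Primrec.eq.comp (Primrec.list_getElem?.comp Primrec.fst (Primrec.fst.comp Primrec.snd))
      (Primrec.option_some.comp (Primrec.snd.comp Primrec.snd))
  · rintro σ τ ⟨n, b⟩ h h2
    simp only at h2 ⊢
    obtain ⟨ρ, rfl⟩ := h
    rw [List.getElem?_append_left]
    · exact h2
    · by_contra hc
      rw [List.getElem?_eq_none (by omega)] at h2
      cases h2
  · rintro B ⟨n, b⟩
    simp only
    constructor
    · rintro rfl
      exact ⟨n + 1, pre_getElem? B _ _ (by omega)⟩
    · rintro ⟨s, hs⟩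
      by_cases h : n < s
      · rw [pre_getElem? B _ _ h] at hs
        simpa using hs
      · rw [pre_getElem?_none B _ _ (by omega)] at hs
        cases hs

/-- substitution of an oracle computed from the oracle -/
theorem sub {F : (ℕ → Bool) → β → ℕ → Bool}
    (hF : U1 fun B (x : (β × ℕ) × Bool) => F B x.1.1 x.1.2 = x.2)
    {p : (ℕ → Bool) → α → Prop} (hp : U1 p) : U1 fun B (x : β × α) => p (F B x.1) x.2 := by
  obtain ⟨E, hE, mE, eE⟩ := hp
  have h2 : U1 fun B (a : β × α) => ∃ σ : List Bool,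
      (∀ i < σ.length, F B a.1 i = σ.getD i false) ∧ E (σ, a.2) := by
    refine ex (p := fun B (a : β × α) (σ : List Bool) =>
      (∀ i < σ.length, F B a.1 i = σ.getD i false) ∧ E (σ, a.2)) (and ?_ ?_)
    · refine all_lt (α := (β × α) × List Bool)
        (p := fun B x i => F B x.1.1 i = x.2.getD i false)
        (f := fun x => x.2.length) ?_ (Primrec.list_length.comp Primrec.snd).to_comp
      exact hF.comp (f := fun z : ((β × α) × List Bool) × ℕ =>
        (((z.1.1.1, z.2), z.1.2.getD z.2 false) : (β × ℕ) × Bool))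
        ((((Primrec.fst.comp (Primrec.fst.comp Primrec.fst)).pair Primrec.snd).pair
          ((Primrec.list_getD false).comp (Primrec.snd.comp Primrec.fst) Primrec.snd))).to_comp
    · exact of_s1 (hE.comp (Primrec.snd.pair (Primrec.snd.comp Primrec.fst)))
  refine h2.of_eq fun B a => ?_
  rw [eE]
  constructor
  · rintro ⟨σ, h3, h4⟩
    refine ⟨σ.length, ?_⟩
    rwa [t42_eq_pre h3]
  · rintro ⟨s, hs⟩
    exact ⟨pre (F B a.1) s, fun i hi => (pre_getD _ _ _ _ (by simpa using hi)).symm, hs⟩

theorem of_pre {P : List Bool × α → Prop} (hP : S1 P) {u : α → ℕ} (hu : Computable u) :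
    U1 fun B a => P (pre B (u a), a) := by
  have h2 : U1 fun B (a : α) => ∃ σ : List Bool,
      (∀ i < σ.length, B i = σ.getD i false) ∧ (σ.length = u a ∧ P (σ, a)) := by
    refine ex (p := fun B (a : α) (σ : List Bool) =>
      (∀ i < σ.length, B i = σ.getD i false) ∧ (σ.length = u a ∧ P (σ, a))) (and ?_ (and ?_ ?_))
    · refine all_lt (α := α × List Bool) (p := fun B x i => B i = x.2.getD i false)
        (f := fun x => x.2.length) ?_ (Primrec.list_length.comp Primrec.snd).to_comp
      exact query.comp (f := fun z : (α × List Bool) × ℕ => ((z.2, z.1.2.getD z.2 false) : ℕ × Bool))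
        ((Primrec.snd.pair
          ((Primrec.list_getD false).comp (Primrec.snd.comp Primrec.fst) Primrec.snd))).to_comp
    · have h3 : S1 fun y : ℕ × ℕ => y.1 = y.2 :=
        S1.of_prim (Primrec.eq.comp Primrec.fst Primrec.snd)
      exact of_s1 (h3.comp_computable (f := fun x : α × List Bool => (x.2.length, u x.1))
        (((Primrec.list_length.comp Primrec.snd).to_comp).pair (hu.comp Computable.fst)))
    · exact of_s1 (hP.comp (Primrec.snd.pair Primrec.fst))
  refine h2.of_eq fun B a => ?_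
  constructor
  · rintro ⟨σ, h3, h4, h5⟩
    have := t42_eq_pre h3
    rw [h4] at this
    rwa [this]
  · intro h
    exact ⟨pre B (u a), fun i hi => (pre_getD _ _ _ _ (by simpa using hi)).symm, by simp, h⟩

/-- an index of the operator -/
theorem index {p : (ℕ → Bool) → ℕ → Prop} (hp : U1 p) : ∃ e : ℕ, ∀ B, WE B e = {n | p B n} := by
  obtain ⟨E, hE, mE, eE⟩ := hp
  obtain ⟨cd, hcd⟩ := Nat.Partrec.Code.exists_code.1 hE.re
  refine ⟨encode cd, fun X => ?_⟩
  ext q
  simp only [WE, Set.mem_ofPred_eq, Denumerable.ofNat_encode]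
  rw [eE]
  refine exists_congr fun k => ?_
  rw [hcd]
  simp [Part.assert, pre]

end U1

/-- `p` is decidable relative to the oracle, uniformly in the oracle. -/
structure UD {α : Type} [Primcodable α] (p : (ℕ → Bool) → α → Prop) : Prop where
  pos : U1 p
  neg : U1 fun B a => ¬ p B a

/-- `f` is computable relative to the oracle, uniformly in the oracle. -/
def UF {α β : Type} [Primcodable α] [Primcodable β] (f : (ℕ → Bool) → α → β) : Prop :=
  U1 fun B (x : α × β) => f B x.1 = x.2

namespace UD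

variable {α β γ : Type} [Primcodable α] [Primcodable β] [Primcodable γ]

theorem of_eq {p q : (ℕ → Bool) → α → Prop} (hp : UD p) (h : ∀ B a, p B a ↔ q B a) : UD q :=
  (funext fun B => funext fun a => propext (h B a) : p = q) ▸ hp

theorem of_prim {p : α → Prop} (hp : PrimrecPred p) : UD fun _ => p :=
  ⟨U1.of_prim hp, U1.of_prim hp.not⟩

theorem comp {p : (ℕ → Bool) → β → Prop} {f : α → β} (hp : UD p) (hf : Computable f) :
    UD fun B a => p B (f a) := ⟨hp.pos.comp hf, hp.neg.comp hf⟩

theorem of_comp {p : β → Prop} (hp : PrimrecPred p) {f : α → β} (hf : Computable f) :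
    UD fun _ a => p (f a) := (of_prim hp).comp hf

theorem and {p q : (ℕ → Bool) → α → Prop} (hp : UD p) (hq : UD q) :
    UD fun B a => p B a ∧ q B a :=
  ⟨hp.pos.and hq.pos, (hp.neg.or hq.neg).of_eq fun _ _ => by tauto⟩

theorem or {p q : (ℕ → Bool) → α → Prop} (hp : UD p) (hq : UD q) :
    UD fun B a => p B a ∨ q B a :=
  ⟨hp.pos.or hq.pos, (hp.neg.and hq.neg).of_eq fun _ _ => by tauto⟩

theorem not {p : (ℕ → Bool) → α → Prop} (hp : UD p) : UD fun B a => ¬ p B a :=
  ⟨hp.neg, hp.pos.of_eq fun _ _ => by tauto⟩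

theorem imp {p q : (ℕ → Bool) → α → Prop} (hp : UD p) (hq : UD q) :
    UD fun B a => p B a → q B a := (hp.not.or hq).of_eq fun _ _ => by tauto

theorem all_mem {p : (ℕ → Bool) → α → β → Prop} {f : α → List β}
    (hp : UD fun B (x : α × β) => p B x.1 x.2) (hf : Computable f) :
    UD fun B a => ∀ b ∈ f a, p B a b := by
  refine ⟨U1.all_mem hp.pos hf, ?_⟩
  have h1 : U1 fun B a => ∃ b, b ∈ f a ∧ ¬ p B a b := by
    refine U1.ex (p := fun B a b => b ∈ f a ∧ ¬ p B a b) (U1.and ?_ hp.neg)
    have h2 : S1 fun x : List β × β => x.2 ∈ x.1 := by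
      refine (S1.of_prim (PP.ex_mem (α := List β × β) (f := fun x => x.1)
        (p := fun x b => b = x.2) ?_ Primrec.fst)).of_eq fun x => by simp
      exact Primrec.eq.comp Primrec.snd (Primrec.snd.comp Primrec.fst)
    exact U1.of_s1 (h2.comp_computable (f := fun x : α × β => (f x.1, x.2))
      ((hf.comp Computable.fst).pair Computable.snd))
  exact h1.of_eq fun B a => by push Not; rfl

theorem ex_mem {p : (ℕ → Bool) → α → β → Prop} {f : α → List β}
    (hp : UD fun B (x : α × β) => p B x.1 x.2) (hf : Computable f) :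
    UD fun B a => ∃ b ∈ f a, p B a b :=
  (all_mem (p := fun B a b => ¬ p B a b) hp.not hf).not.of_eq fun _ _ => by push Not; rfl

theorem all_lt {p : (ℕ → Bool) → α → ℕ → Prop} {f : α → ℕ}
    (hp : UD fun B (x : α × ℕ) => p B x.1 x.2) (hf : Computable f) :
    UD fun B a => ∀ b < f a, p B a b :=
  (all_mem hp (Primrec.list_range.to_comp.comp hf)).of_eq (by simp)

theorem ex_lt {p : (ℕ → Bool) → α → ℕ → Prop} {f : α → ℕ}
    (hp : UD fun B (x : α × ℕ) => p B x.1 x.2) (hf : Computable f) :
    UD fun B a => ∃ b < f a, p B a b :=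
  (ex_mem hp (Primrec.list_range.to_comp.comp hf)).of_eq (by simp)

theorem query : UD fun B (n : ℕ) => B n = true := by
  constructor
  · exact U1.query.comp (f := fun n : ℕ => (n, true)) (Computable.id.pair (Computable.const true))
  · exact (U1.query.comp (f := fun n : ℕ => (n, false))
      (Computable.id.pair (Computable.const false))).of_eq fun B n => by simp

/-- the graph from decidability -/
theorem graph {F : (ℕ → Bool) → α → Bool} (hF : UD fun B a => F B a = true) : UF F := by
  have h1 : U1 fun B (x : α × Bool) => (F B x.1 = true ∧ x.2 = true) ∨ (¬ F B x.1 = true ∧ x.2 = false) := by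
    refine U1.or (U1.and (hF.pos.comp Computable.fst) (U1.of_prim ?_))
      (U1.and (hF.neg.comp Computable.fst) (U1.of_prim ?_))
    · exact Primrec.eq.comp Primrec.snd (Primrec.const true)
    · exact Primrec.eq.comp Primrec.snd (Primrec.const false)
  refine h1.of_eq fun B x => ?_
  rcases x with ⟨n, b⟩
  cases b <;> simp

/-- substitution of an oracle computed from the oracle -/
theorem sub {F : (ℕ → Bool) → β → ℕ → Bool} (hF : UD fun B (x : β × ℕ) => F B x.1 x.2 = true)
    {p : (ℕ → Bool) → α → Prop} (hp : UD p) : UD fun B (x : β × α) => p (F B x.1) x.2 := by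
  have h1 : U1 fun B (x : (β × ℕ) × Bool) => F B x.1.1 x.1.2 = x.2 :=
    graph (F := fun B (x : β × ℕ) => F B x.1 x.2) hF
  exact ⟨U1.sub h1 hp.pos, U1.sub h1 hp.neg⟩

theorem of_pre {P : List Bool × α → Prop} (hP : PrimrecPred P) {u : α → ℕ} (hu : Computable u) :
    UD fun B a => P (pre B (u a), a) :=
  ⟨U1.of_pre (S1.of_prim hP) hu, U1.of_pre (S1.of_prim hP.not) hu⟩

end UD

namespace UF

variable {α β γ : Type} [Primcodable α] [Primcodable β] [Primcodable γ]

theorem of_pre {f : List Bool × α → β} (hf : Primrec f) {u : α → ℕ} (hu : Computable u) :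
    UF fun B a => f (pre B (u a), a) := by
  have h1 : PrimrecPred fun y : List Bool × (α × β) => f (y.1, y.2.1) = y.2.2 :=
    Primrec.eq.comp (hf.comp (Primrec.fst.pair (Primrec.fst.comp Primrec.snd)))
      (Primrec.snd.comp Primrec.snd)
  exact U1.of_pre (P := fun y : List Bool × (α × β) => f (y.1, y.2.1) = y.2.2)
    (u := fun x : α × β => u x.1) (S1.of_prim h1) (hu.comp Computable.fst)

theorem comp {f : (ℕ → Bool) → β → γ} (hf : UF f) {g : α → β} (hg : Computable g) :
    UF fun B a => f B (g a) :=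
  U1.comp (p := fun B (x : β × γ) => f B x.1 = x.2) (f := fun x : α × γ => (g x.1, x.2)) hf
    ((hg.comp Computable.fst).pair Computable.snd)

theorem sub {F : (ℕ → Bool) → β → ℕ → Bool} (hF : UD fun B (x : β × ℕ) => F B x.1 x.2 = true)
    {f : (ℕ → Bool) → α → γ} (hf : UF f) : UF fun B (x : β × α) => f (F B x.1) x.2 := by
  have h1 : U1 fun B (x : (β × ℕ) × Bool) => F B x.1.1 x.1.2 = x.2 :=
    UD.graph (F := fun B (x : β × ℕ) => F B x.1 x.2) hF
  have h2 := U1.sub h1 hf
  exact h2.comp (f := fun x : (β × α) × γ => (x.1.1, (x.1.2, x.2)))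
    ((Primrec.fst.comp Primrec.fst).pair ((Primrec.snd.comp Primrec.fst).pair Primrec.snd)).to_comp

/-- a decidable predicate at computed values -/
theorem pred {f : (ℕ → Bool) → α → β} (hf : UF f) {p : (ℕ → Bool) → α → β → Prop}
    (hp : UD fun B (x : α × β) => p B x.1 x.2) : UD fun B a => p B a (f B a) := by
  constructor
  · refine (U1.ex (p := fun B a b => f B a = b ∧ p B a b) (U1.and hf hp.pos)).of_eq fun B a => ?_
    simp
  · refine (U1.ex (p := fun B a b => f B a = b ∧ ¬ p B a b) (U1.and hf hp.neg)).of_eq fun B a => ?_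
    simp

end UF

end Pool.Agent.V7H75.HF
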