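import Pool.Agent.V7H75.HF.Iter

set_option autoImplicit false

/-!
Primitive recursive operations on the integers.
-/

namespace Pool.Agent.V7H75.HF

open Encodable Pool.Agent.Helper227

theorem encZ (z : ℤ) : encode z = if 0 ≤ z then 2 * z.toNat else 2 * (-z).toNat - 1 := by
  cases z with
  | ofNat n =>
    have h1 : 0 ≤ Int.ofNat n := Int.natCast_nonneg n
    rw [if_pos h1]
    rfl
  | negSucc n =>
    have h1 : ¬ 0 ≤ Int.negSucc n := by omega
    have h2 : (-Int.negSucc n).toNat = n + 1 := by omega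
    rw [if_neg h1, h2]
    change 2 * n + 1 = _
    omega

theorem prim_toNat : Primrec Int.toNat := by
  have h : Primrec fun z : ℤ => if encode z % 2 = 0 then encode z / 2 else 0 :=
    Primrec.ite (Primrec.eq.comp (Primrec.nat_mod.comp Primrec.encode (Primrec.const 2))
      (Primrec.const 0)) (Primrec.nat_div.comp Primrec.encode (Primrec.const 2)) (Primrec.const 0)
  refine h.of_eq fun z => ?_
  rw [encZ]
  split_ifs <;> omega

theorem prim_negToNat : Primrec fun z : ℤ => (-z).toNat := by
  have h : Primrec fun z : ℤ => if encode z % 2 = 0 then 0 else encode z / 2 + 1 :=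
    Primrec.ite (Primrec.eq.comp (Primrec.nat_mod.comp Primrec.encode (Primrec.const 2))
      (Primrec.const 0)) (Primrec.const 0)
      (Primrec.succ.comp (Primrec.nat_div.comp Primrec.encode (Primrec.const 2)))
  refine h.of_eq fun z => ?_
  rw [encZ]
  split_ifs <;> omega

theorem prim_mkZ : Primrec₂ fun a b : ℕ => (a : ℤ) - b := by
  have h : Primrec fun x : ℕ × ℕ => if x.2 ≤ x.1 then 2 * (x.1 - x.2) else 2 * (x.2 - x.1) - 1 :=
    Primrec.ite (Primrec.nat_le.comp Primrec.snd Primrec.fst)
      (Primrec.nat_mul.comp (Primrec.const 2) (Primrec.nat_sub.comp Primrec.fst Primrec.snd))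
      (Primrec.nat_sub.comp (Primrec.nat_mul.comp (Primrec.const 2)
        (Primrec.nat_sub.comp Primrec.snd Primrec.fst)) (Primrec.const 1))
  refine Primrec.encode_iff.1 (h.of_eq fun x => ?_)
  have h1 := encZ ((x.1 : ℤ) - (x.2 : ℤ))
  refine Eq.trans ?_ h1.symm
  split_ifs <;> omega

theorem prim_addZ : Primrec₂ fun a b : ℤ => a + b := by
  have h : Primrec fun x : ℤ × ℤ => ((x.1.toNat + x.2.toNat : ℕ) : ℤ) -
      (((-x.1).toNat + (-x.2).toNat : ℕ) : ℤ) :=
    prim_mkZ.comp (Primrec.nat_add.comp (prim_toNat.comp Primrec.fst) (prim_toNat.comp Primrec.snd))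
      (Primrec.nat_add.comp (prim_negToNat.comp Primrec.fst) (prim_negToNat.comp Primrec.snd))
  exact h.of_eq fun x => by push_cast; omega

theorem prim_absZ : Primrec Int.natAbs := by
  have h : Primrec fun z : ℤ => z.toNat + (-z).toNat := Primrec.nat_add.comp prim_toNat prim_negToNat
  exact h.of_eq fun x => by omega

theorem prim_leZ : PrimrecRel fun a b : ℤ => a ≤ b := by
  have h : PrimrecPred fun x : ℤ × ℤ => x.1.toNat + (-x.2).toNat ≤ x.2.toNat + (-x.1).toNat :=
    Primrec.nat_le.comp
      (Primrec.nat_add.comp (prim_toNat.comp Primrec.fst) (prim_negToNat.comp Primrec.snd))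
      (Primrec.nat_add.comp (prim_toNat.comp Primrec.snd) (prim_negToNat.comp Primrec.fst))
  exact h.of_eq fun x => by omega

theorem prim_ltZ : PrimrecRel fun a b : ℤ => a < b := by
  have h : PrimrecPred fun x : ℤ × ℤ => ¬ x.2 ≤ x.1 :=
    (prim_leZ.comp Primrec.snd Primrec.fst).not
  exact h.of_eq fun x => by omega

/-- the integers between `-n` and `n` -/
def win (n : ℕ) : List ℤ := (List.range (2 * n + 1)).map fun t : ℕ => (t : ℤ) - (n : ℤ)

theorem mem_win {n : ℕ} {k : ℤ} : k ∈ win n ↔ |k| ≤ n := by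
  unfold win
  rw [List.mem_map]
  constructor
  · rintro ⟨t, ht, rfl⟩
    rw [List.mem_range] at ht
    rw [abs_le]
    omega
  · intro h
    rw [abs_le] at h
    exact ⟨(k + n).toNat, List.mem_range.2 (by omega), by omega⟩

theorem prim_win : Primrec win := by
  refine Primrec.list_map (Primrec.list_range.comp
    (Primrec.succ.comp (Primrec.nat_mul.comp (Primrec.const 2) Primrec.id))) ?_
  exact prim_mkZ.comp Primrec.snd Primrec.fst

namespace UD

variable {α : Type} [Primcodable α]

theorem all_win {p : (ℕ → Bool) → α → ℤ → Prop} {f : α → ℕ}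
    (hp : UD fun B (x : α × ℤ) => p B x.1 x.2) (hf : Computable f) :
    UD fun B a => ∀ k : ℤ, |k| ≤ f a → p B a k :=
  (UD.all_mem hp (prim_win.to_comp.comp hf)).of_eq fun B a => by simp only [mem_win]

theorem ex_win {p : (ℕ → Bool) → α → ℤ → Prop} {f : α → ℕ}
    (hp : UD fun B (x : α × ℤ) => p B x.1 x.2) (hf : Computable f) :
    UD fun B a => ∃ k : ℤ, |k| ≤ f a ∧ p B a k :=
  (UD.ex_mem hp (prim_win.to_comp.comp hf)).of_eq fun B a => by simp only [mem_win]

end UD

end Pool.Agent.V7H75.HF
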